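import Mathlib

/-! Digit sums in base P. -/

open Finset

namespace SlopeLP

/-- the sum of the digits of `j` in base `P` -/
def ds (P j : ℕ) : ℕ := (Nat.digits P j).sum

theorem ds_zero (P : ℕ) : ds P 0 = 0 := by simp [ds]

theorem ds_mul_add {P : ℕ} (hP : 1 < P) (j d : ℕ) (hd : d < P) :
    ds P (P * j + d) = d + ds P j := by
  by_cases h : d ≠ 0 ∨ j ≠ 0
  · have := Nat.digits_add P hP d j hd h
    unfold ds
    rw [add_comm, this, List.sum_cons]
  · push Not at h
    obtain ⟨rfl, rfl⟩ := h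
    simp [ds]

theorem ds_compl {P : ℕ} (hP : 1 < P) (r : ℕ) : ∀ j : ℕ, j < P ^ r →
    ds P (P ^ r - 1 - j) + ds P j = r * (P - 1) := by
  induction r with
  | zero => intro j hj; simp at hj; subst hj; simp [ds]
  | succ r ih =>
    intro j hj
    have hd : j % P < P := Nat.mod_lt _ (by omega)
    have hj' : j / P < P ^ r := Nat.div_lt_of_lt_mul (by rwa [pow_succ'] at hj)
    have e1 : j = P * (j / P) + j % P := (Nat.div_add_mod j P).symm
    have e2 : P ^ (r + 1) - 1 - j = P * (P ^ r - 1 - j / P) + (P - 1 - j % P) := by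
      set q := j / P
      set d := j % P
      obtain ⟨c, hc⟩ : ∃ c, P ^ r = q + 1 + c := ⟨P ^ r - (q + 1), by omega⟩
      have h3 : P ^ r - 1 - q = c := by omega
      rw [h3, pow_succ', hc]
      obtain ⟨e, he⟩ : ∃ e, P = d + 1 + e := ⟨P - (d + 1), by omega⟩
      have h4 : P - 1 - d = e := by omega
      rw [h4]
      have h5 : P * (q + 1 + c) = j + 1 + (P * c + e) := by
        calc P * (q + 1 + c) = P * q + P * c + P := by ring
          _ = P * q + P * c + (d + 1 + e) := by rw [← he]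
          _ = (P * q + d) + 1 + (P * c + e) := by ring
          _ = j + 1 + (P * c + e) := by rw [← e1]
      rw [h5]; omega
    have e4 : ds P j = j % P + ds P (j / P) := by
      conv_lhs => rw [e1]
      rw [ds_mul_add hP _ _ hd]
    rw [e2, ds_mul_add hP _ _ (by omega), e4]
    have := ih _ hj'
    have h6 : (r + 1) * (P - 1) = r * (P - 1) + (P - 1) := by ring
    omega

theorem ds_formula {P : ℕ} (hP : 1 < P) (r : ℕ) : ∀ j : ℕ, j < P ^ r →
    (P - 1) * ∑ i ∈ range r, j / P ^ (i + 1) + ds P j = j := by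
  induction r with
  | zero => intro j hj; simp at hj; subst hj; simp [ds]
  | succ r ih =>
    intro j hj
    have hd : j % P < P := Nat.mod_lt _ (by omega)
    have hj' : j / P < P ^ r := Nat.div_lt_of_lt_mul (by rwa [pow_succ'] at hj)
    have e1 : j = P * (j / P) + j % P := (Nat.div_add_mod j P).symm
    have e3 : ∑ i ∈ range (r + 1), j / P ^ (i + 1) = j / P + ∑ i ∈ range r, (j / P) / P ^ (i + 1) := by
      rw [sum_range_succ']
      simp only [zero_add, pow_one]
      rw [add_comm]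
      congr 1
      refine sum_congr rfl fun i _ => ?_
      rw [Nat.div_div_eq_div_mul, ← pow_succ']
    have e4 : ds P j = j % P + ds P (j / P) := by
      conv_lhs => rw [e1]
      rw [ds_mul_add hP _ _ hd]
    rw [e3, e4]
    have := ih _ hj'
    have h7 : (P - 1) * (j / P + ∑ i ∈ range r, (j / P) / P ^ (i + 1))
      = (P - 1) * (j / P) + (P - 1) * ∑ i ∈ range r, (j / P) / P ^ (i + 1) := by ring
    rw [h7]
    have h8 : (P - 1) * (j / P) + (j / P) = P * (j / P) := by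
      obtain ⟨c, rfl⟩ : ∃ c, P = c + 1 := ⟨P - 1, by omega⟩
      simp only [Nat.add_sub_cancel]; ring
    omega

/-- the `i`-th cyclic digit shift -/
def shift (P r i w : ℕ) : ℤ := (P : ℤ) ^ i * w - ((P : ℤ) ^ r - 1) * ((w / P ^ (r - i) : ℕ) : ℤ)

theorem sum_shift {P : ℕ} (hP : 1 < P) (r w : ℕ) (hw : w < P ^ r) :
    ((P : ℤ) - 1) * ∑ i ∈ range r, shift P r i w = ((P : ℤ) ^ r - 1) * ds P w := by
  have h1 : ∑ i ∈ range r, ((w / P ^ (r - i) : ℕ) : ℤ) = ∑ i ∈ range r, ((w / P ^ (i + 1) : ℕ) : ℤ) := by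
    rw [← sum_range_reflect]
    refine sum_congr rfl fun i hi => ?_
    rw [mem_range] at hi
    congr 3
    omega
  have h2 : ((P : ℤ) - 1) * ∑ i ∈ range r, ((w / P ^ (i + 1) : ℕ) : ℤ) + (ds P w : ℤ) = w := by
    have := ds_formula hP r w hw
    have h3 : (((P - 1) * ∑ i ∈ range r, w / P ^ (i + 1) + ds P w : ℕ) : ℤ) = (w : ℤ) := by
      rw [this]
    push_cast [Nat.cast_sub hP.le] at h3
    push_cast
    exact h3
  have h4 : ((P : ℤ) - 1) * ∑ i ∈ range r, (P : ℤ) ^ i = (P : ℤ) ^ r - 1 := by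
    have := geom_sum_mul (P : ℤ) r
    linarith
  unfold shift
  rw [sum_sub_distrib, ← sum_mul, ← mul_sum, h1]
  calc ((P : ℤ) - 1) * ((∑ i ∈ range r, (P : ℤ) ^ i) * w
        - ((P : ℤ) ^ r - 1) * ∑ i ∈ range r, ((w / P ^ (i + 1) : ℕ) : ℤ))
      = (((P : ℤ) - 1) * (∑ i ∈ range r, (P : ℤ) ^ i)) * w
        - ((P : ℤ) ^ r - 1) * (((P : ℤ) - 1) * ∑ i ∈ range r, ((w / P ^ (i + 1) : ℕ) : ℤ)) := by ring
    _ = ((P : ℤ) ^ r - 1) * ds P w := by
        rw [h4]
        have h5 : ((P : ℤ) - 1) * ∑ i ∈ range r, ((w / P ^ (i + 1) : ℕ) : ℤ) = w - ds P w := by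
          linarith
        rw [h5]; ring

theorem shift_bound {P : ℕ} (hP : 1 < P) (r i w : ℕ) (hi : i < r) :
    0 ≤ shift P r i w ∧ (0 < w → 0 < shift P r i w) := by
  have hp0 : 0 < P := by omega
  have h1 : (w / P ^ (r - i)) * P ^ (r - i) ≤ w := Nat.div_mul_le_self _ _
  have h2 : P ^ r = P ^ i * P ^ (r - i) := by rw [← pow_add]; congr 1; omega
  have h3 : ((w / P ^ (r - i) : ℕ) : ℤ) * (P : ℤ) ^ r ≤ (P : ℤ) ^ i * w := by
    have : (w / P ^ (r - i)) * P ^ r ≤ P ^ i * w := by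
      rw [h2]
      calc (w / P ^ (r - i)) * (P ^ i * P ^ (r - i)) = P ^ i * ((w / P ^ (r - i)) * P ^ (r - i)) := by ring
        _ ≤ P ^ i * w := Nat.mul_le_mul_left _ h1
    exact_mod_cast this
  have h4 : shift P r i w = ((P : ℤ) ^ i * w - ((w / P ^ (r - i) : ℕ) : ℤ) * (P : ℤ) ^ r)
      + ((w / P ^ (r - i) : ℕ) : ℤ) := by
    unfold shift; ring
  have h5 : (0 : ℤ) ≤ ((w / P ^ (r - i) : ℕ) : ℤ) := by positivity
  refine ⟨by rw [h4]; linarith, fun hw => ?_⟩
  rw [h4]
  by_cases hz : w / P ^ (r - i) = 0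
  · rw [hz]
    simp only [Nat.cast_zero, zero_mul, sub_zero, add_zero]
    positivity
  · have h6 : (0 : ℤ) < ((w / P ^ (r - i) : ℕ) : ℤ) := by
      exact_mod_cast Nat.pos_of_ne_zero hz
    linarith

end SlopeLP
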