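import Mathlib
import Pool.Agent.Lib_helper7.SLP.Digits

/-! Stickelberger's estimate for Gauss sums with values in an ultrametric field. -/

open Finset

namespace SlopeLP

section Basic

variable {L : Type*} [NormedField L] [IsUltrametricDist L]
variable {F : Type*} [Field F] [Fintype F]

/-- a character `ω` of `F` that is additive modulo the maximal ideal -/
def IsTeich (ω : MulChar F L) : Prop := ∀ x y : F, ‖ω (x + y) - ω x - ω y‖ < 1

theorem norm_sub_lt' {a b : L} {C : ℝ} (ha : ‖a‖ < C) (hb : ‖b‖ < C) : ‖a - b‖ < C := by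
  rw [sub_eq_add_neg]
  refine lt_of_le_of_lt (IsUltrametricDist.norm_add_le_max _ _) (max_lt ha ?_)
  rwa [norm_neg]

theorem norm_sum_le_of {ι : Type*} (s : Finset ι) (f : ι → L) (C : ℝ) (hC : 0 ≤ C)
    (h : ∀ i ∈ s, ‖f i‖ ≤ C) : ‖∑ i ∈ s, f i‖ ≤ C :=
  IsUltrametricDist.norm_sum_le_of_forall_le_of_nonneg hC h

omit [IsUltrametricDist L] in
theorem norm_mulChar (χ : MulChar F L) {x : F} (hx : x ≠ 0) : ‖χ x‖ = 1 := by
  have h1 : (χ x) ^ (Fintype.card F - 1) = 1 := by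
    rw [← map_pow, FiniteField.pow_card_sub_one_eq_one x hx, map_one]
  have h2 : ‖χ x‖ ^ (Fintype.card F - 1) = 1 := by rw [← norm_pow, h1, norm_one]
  have h3 : Fintype.card F - 1 ≠ 0 := by
    have := Fintype.one_lt_card (α := F); omega
  exact (pow_eq_one_iff_of_nonneg (norm_nonneg _) h3).1 h2

omit [IsUltrametricDist L] in
theorem norm_mulChar_le (χ : MulChar F L) (x : F) : ‖χ x‖ ≤ 1 := by
  by_cases hx : x = 0
  · subst hx
    rw [χ.map_zero, norm_zero]; exact zero_le_one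
  · exact (norm_mulChar χ hx).le

theorem norm_jacobi_le (χ φ : MulChar F L) : ‖jacobiSum χ φ‖ ≤ 1 := by
  unfold jacobiSum
  refine norm_sum_le_of _ _ 1 zero_le_one fun x _ => ?_
  rw [norm_mul]
  exact mul_le_one₀ (norm_mulChar_le _ _) (norm_nonneg _) (norm_mulChar_le _ _)

/-- `ω` is injective -/
theorem IsTeich.eq_one {ω : MulChar F L} (hω : IsTeich ω) {x : F} (hx : ω x = 1) : x = 1 := by
  by_contra hne
  have h0 : x - 1 ≠ 0 := sub_ne_zero.2 hne
  have h1 := hω (x - 1) 1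
  rw [sub_add_cancel, hx, map_one] at h1
  have h2 : ‖(1 : L) - ω (x - 1) - 1‖ = 1 := by
    have : (1 : L) - ω (x - 1) - 1 = - ω (x - 1) := by ring
    rw [this, norm_neg, norm_mulChar ω h0]
  linarith

theorem IsTeich.pow_ne_one {ω : MulChar F L} (hω : IsTeich ω) {n : ℕ} (h0 : 0 < n)
    (hn : n < Fintype.card F - 1) : ω ^ n ≠ 1 := by
  intro h
  obtain ⟨g, hg⟩ := IsCyclic.exists_generator (α := Fˣ)
  have h1 : ω ((g : F) ^ n) = 1 := by
    rw [map_pow, ← MulChar.pow_apply' ω h0.ne', h, MulChar.one_apply g.isUnit]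
  have h2 := hω.eq_one h1
  have h3 : g ^ n = 1 := by
    apply Units.ext
    rw [Units.val_pow_eq_pow_val, h2, Units.val_one]
  have h4 := orderOf_dvd_of_pow_eq_one h3
  rw [orderOf_eq_card_of_forall_mem_zpowers hg, Nat.card_units, Nat.card_eq_fintype_card] at h4
  exact absurd (Nat.le_of_dvd h0 h4) (by omega)

theorem IsTeich.inv_pow_ne_one {ω : MulChar F L} (hω : IsTeich ω) {n : ℕ} (h0 : 0 < n)
    (hn : n < Fintype.card F - 1) : (ω⁻¹) ^ n ≠ 1 := by
  intro h
  apply hω.pow_ne_one h0 hn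
  rw [inv_pow] at h
  exact inv_eq_one.1 h

omit [IsUltrametricDist L] in
theorem mulChar_pow_card_sub_one {ω : MulChar F L} : ω ^ (Fintype.card F - 1) = 1 := by
  ext g
  have h3 : Fintype.card F - 1 ≠ 0 := by
    have := Fintype.one_lt_card (α := F); omega
  rw [MulChar.pow_apply' ω h3, MulChar.one_apply g.isUnit, ← map_pow,
    FiniteField.pow_card_sub_one_eq_one _ g.ne_zero, map_one]

/-- additivity for natural multiples of one -/
theorem IsTeich.natCast {ω : MulChar F L} (hω : IsTeich ω) (n : ℕ) :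
    ‖(n : L) - ω (n : F)‖ < 1 := by
  induction n with
  | zero => simp [ω.map_zero]
  | succ n ih =>
    have h1 := hω (n : F) 1
    rw [map_one] at h1
    have h2 : ((n + 1 : ℕ) : L) - ω ((n + 1 : ℕ) : F)
        = ((n : L) - ω (n : F)) - (ω ((n : F) + 1) - ω (n : F) - 1) := by
      push_cast; ring
    rw [h2]
    exact norm_sub_lt' ih h1

theorem IsTeich.sum {ω : MulChar F L} (hω : IsTeich ω) {ι : Type*} (s : Finset ι) (f : ι → F) :
    ‖(∑ i ∈ s, ω (f i)) - ω (∑ i ∈ s, f i)‖ < 1 := by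
  classical
  induction s using Finset.induction_on with
  | empty => simp [ω.map_zero]
  | insert a s ha ih =>
    rw [sum_insert ha, sum_insert ha]
    have h1 := hω (f a) (∑ i ∈ s, f i)
    have h2 : ω (f a) + ∑ i ∈ s, ω (f i) - ω (f a + ∑ i ∈ s, f i)
        = (∑ i ∈ s, ω (f i) - ω (∑ i ∈ s, f i))
          - (ω (f a + ∑ i ∈ s, f i) - ω (f a) - ω (∑ i ∈ s, f i)) := by ring
    rw [h2]
    exact norm_sub_lt' ih h1

end Basic

section Zeta

variable {L : Type*} [NormedField L] [IsUltrametricDist L] {P : ℕ} [hP : Fact P.Prime]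
variable {ζ : L}

omit [IsUltrametricDist L] in
theorem norm_zeta (hζ : IsPrimitiveRoot ζ P) : ‖ζ‖ = 1 := by
  have h1 : ‖ζ‖ ^ P = 1 := by rw [← norm_pow, hζ.pow_eq_one, norm_one]
  exact (pow_eq_one_iff_of_nonneg (norm_nonneg _) hP.out.ne_zero).1 h1

theorem norm_geom_le (hζ : IsPrimitiveRoot ζ P) (n : ℕ) : ‖∑ i ∈ range n, ζ ^ i‖ ≤ 1 := by
  refine norm_sum_le_of _ _ 1 zero_le_one fun i _ => ?_
  rw [norm_pow, norm_zeta hζ, one_pow]

theorem norm_pow_sub_one_le (hζ : IsPrimitiveRoot ζ P) (n : ℕ) : ‖ζ ^ n - 1‖ ≤ ‖ζ - 1‖ := by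
  rw [← geom_sum_mul, norm_mul]
  exact mul_le_of_le_one_left (norm_nonneg _) (norm_geom_le hζ n)

theorem norm_pow_sub_one_eq (hζ : IsPrimitiveRoot ζ P) {μ : L} (hμ : IsPrimitiveRoot μ P) :
    ‖μ - 1‖ = ‖ζ - 1‖ := by
  refine le_antisymm ?_ ?_
  · obtain ⟨i, -, rfl⟩ := hζ.eq_pow_of_pow_eq_one hμ.pow_eq_one
    exact norm_pow_sub_one_le hζ i
  · obtain ⟨i, -, rfl⟩ := hμ.eq_pow_of_pow_eq_one hζ.pow_eq_one
    exact norm_pow_sub_one_le hμ i

theorem norm_pi_pow (hζ : IsPrimitiveRoot ζ P) : ‖ζ - 1‖ ^ (P - 1) = ‖(P : L)‖ := by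
  obtain ⟨n, hn⟩ : ∃ n, P = n + 1 := ⟨P - 1, by have := hP.out.pos; omega⟩
  have hp := hP.out
  subst hn
  have h1 := IsPrimitiveRoot.prod_one_sub_pow_eq_order hζ
  have h2 : ‖∏ k ∈ range n, (1 - ζ ^ (k + 1))‖ = ‖ζ - 1‖ ^ n := by
    rw [norm_prod]
    rw [prod_congr rfl (g := fun _ => ‖ζ - 1‖), prod_const, card_range]
    intro k hk
    rw [mem_range] at hk
    rw [norm_sub_rev]
    refine norm_pow_sub_one_eq hζ (hζ.pow_of_coprime (k + 1) ?_)
    exact Nat.Coprime.symm (hp.coprime_iff_not_dvd.2 fun hd => absurd (Nat.le_of_dvd (by omega) hd) (by omega))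
  rw [h1] at h2
  simp only [Nat.add_sub_cancel]
  rw [← h2]
  push_cast
  rfl

theorem norm_pow_expand (hζ : IsPrimitiveRoot ζ P) (n : ℕ) :
    ‖ζ ^ n - 1 - n * (ζ - 1)‖ ≤ ‖ζ - 1‖ ^ 2 := by
  have h1 : ζ ^ n - 1 - n * (ζ - 1) = (∑ i ∈ range n, (ζ ^ i - 1)) * (ζ - 1) := by
    rw [← geom_sum_mul, sum_sub_distrib, sum_const, card_range, nsmul_eq_mul, mul_one]
    ring
  rw [h1, norm_mul, pow_two]
  refine mul_le_mul_of_nonneg_right ?_ (norm_nonneg _)
  exact norm_sum_le_of _ _ _ (norm_nonneg _) fun i _ => norm_pow_sub_one_le hζ i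

end Zeta

section Gauss

variable {L : Type*} [NormedField L] [IsUltrametricDist L]
variable {F : Type*} [Field F] [Fintype F]
variable {P : ℕ} [hP : Fact P.Prime] [Algebra (ZMod P) F]
variable {ζ : L}

/-- the additive character `x ↦ ζ ^ Tr(x)` -/
noncomputable def psi (F : Type*) [Field F] [Algebra (ZMod P) F] (hζ : IsPrimitiveRoot ζ P) :
    AddChar F L :=
  (AddChar.zmodChar P hζ.pow_eq_one).compAddMonoidHom
    (Algebra.trace (ZMod P) F).toAddMonoidHom

omit [IsUltrametricDist L] [Fintype F] in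
theorem psi_apply (hζ : IsPrimitiveRoot ζ P) (x : F) :
    psi F hζ x = ζ ^ (Algebra.trace (ZMod P) F x).val := by
  unfold psi
  rw [AddChar.compAddMonoidHom_apply]
  exact AddChar.zmodChar_apply _ _

omit [IsUltrametricDist L] in
theorem psi_ne_one (hζ : IsPrimitiveRoot ζ P) : psi F hζ ≠ 1 := by
  intro h
  have hc : CharP F P := by
    have := charP_of_injective_algebraMap (algebraMap (ZMod P) F).injective P
    exact this
  obtain ⟨b, hb⟩ : ∃ b : F, Algebra.trace (ZMod P) F b ≠ 0 := by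
    have h2 := Algebra.trace_surjective (ZMod P) F
    obtain ⟨b, hb⟩ := h2 1
    exact ⟨b, by rw [hb]; exact one_ne_zero⟩
  have h1 : psi F hζ b = 1 := by rw [h]; rfl
  rw [psi_apply] at h1
  have h3 := (hζ.pow_eq_one_iff_dvd _).1 h1
  have h4 : (Algebra.trace (ZMod P) F b).val = 0 :=
    Nat.eq_zero_of_dvd_of_lt h3 (ZMod.val_lt _)
  exact hb ((ZMod.val_eq_zero _).1 h4)

omit [IsUltrametricDist L] in
theorem psi_frob (hζ : IsPrimitiveRoot ζ P) (x : F) : psi F hζ (x ^ P) = psi F hζ x := by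
  rw [psi_apply, psi_apply]
  congr 2
  have h1 := Algebra.trace_eq_of_algEquiv (FiniteField.frobeniusAlgEquivOfAlgebraic (ZMod P) F) x
  rw [← h1]
  congr 1
  rw [FiniteField.coe_frobeniusAlgEquivOfAlgebraic, ZMod.card]

omit [IsUltrametricDist L] [Fintype F] in
theorem norm_psi (hζ : IsPrimitiveRoot ζ P) (x : F) : ‖psi F hζ x‖ = 1 := by
  rw [psi_apply, norm_pow, norm_zeta hζ, one_pow]

omit [IsUltrametricDist L] in
/-- Frobenius invariance of Gauss sums -/
theorem gauss_frob (hζ : IsPrimitiveRoot ζ P) (χ : MulChar F L) :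
    gaussSum (χ ^ P) (psi F hζ) = gaussSum χ (psi F hζ) := by
  unfold gaussSum
  have hc : CharP F P := charP_of_injective_algebraMap (algebraMap (ZMod P) F).injective P
  have hb : Function.Bijective (fun x : F => x ^ P) := by
    have h1 : Function.Injective (frobenius F P) := frobenius_inj F P
    exact (Finite.injective_iff_bijective.1 h1)
  rw [← hb.sum_comp (fun x => χ x * psi F hζ x)]
  refine sum_congr rfl fun x _ => ?_
  rw [psi_frob, MulChar.pow_apply' χ hP.out.ne_zero, map_pow]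

end Gauss

end SlopeLP
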