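import Mathlib
import Pool.Agent.Lib_helper7.SLP.Gauss

/-! Stickelberger's estimate for Gauss sums with values in an ultrametric field, continued. -/

open Finset

namespace SlopeLP

section

variable {L : Type*} [NormedField L] [IsUltrametricDist L]
variable {F : Type*} [Field F]
variable {P : ℕ} [hP : Fact P.Prime] [Algebra (ZMod P) F]
variable {ζ : L}

/-- the degree of `F` over the prime field -/
noncomputable def deg (P : ℕ) [Fact P.Prime] (F : Type*) [Field F] [Algebra (ZMod P) F] : ℕ :=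
  Module.finrank (ZMod P) F

theorem card_eq [Fintype F] : Fintype.card F = P ^ deg P F := by
  have := Module.card_eq_pow_finrank (K := ZMod P) (V := F)
  rw [ZMod.card] at this
  exact this

theorem deg_pos [Fintype F] : 0 < deg P F := Module.finrank_pos

theorem charPF : CharP F P := charP_of_injective_algebraMap (algebraMap (ZMod P) F).injective P

variable [Fintype F]

theorem inv_pow_eq (ω : MulChar F L) (b : ℕ) : (ω⁻¹) ^ b = ω ^ (b * (Fintype.card F - 2)) := by
  have hc := Fintype.one_lt_card (α := F)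
  have h2 : (ω⁻¹ : MulChar F L) = ω ^ (Fintype.card F - 2) := by
    have h3 : ω ^ (Fintype.card F - 2) * ω = 1 := by
      rw [← pow_succ]
      have : Fintype.card F - 2 + 1 = Fintype.card F - 1 := by omega
      rw [this, mulChar_pow_card_sub_one]
    exact inv_eq_of_mul_eq_one_left h3
  rw [h2, ← pow_mul, mul_comm]

theorem sum_char_pow {ω : MulChar F L} (hω : IsTeich ω) (N : ℕ) :
    ∑ x : F, (ω ^ N) x = if (Fintype.card F - 1) ∣ N then ((Fintype.card F : L) - 1) else 0 := by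
  classical
  have hc := Fintype.one_lt_card (α := F)
  split_ifs with hd
  · obtain ⟨k, hk⟩ := hd
    rw [hk, pow_mul, mulChar_pow_card_sub_one, one_pow]
    rw [MulChar.sum_one_eq_card_units, Fintype.card_units]
    push_cast [Nat.cast_sub hc.le]
    ring
  · apply MulChar.sum_eq_zero_of_ne_one
    intro h
    apply hd
    have h3 : ω ^ (N % (Fintype.card F - 1)) = 1 := by
      have h4 := Nat.div_add_mod N (Fintype.card F - 1)
      have h5 : ω ^ N = ω ^ (N % (Fintype.card F - 1)) := by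
        conv_lhs => rw [← h4]
        rw [pow_add, pow_mul, mulChar_pow_card_sub_one, one_pow, one_mul]
      rw [← h5]; exact h
    by_contra hnd
    have h6 : 0 < N % (Fintype.card F - 1) := Nat.pos_of_ne_zero fun h0 => hnd (Nat.dvd_of_mod_eq_zero h0)
    exact hω.pow_ne_one h6 (Nat.mod_lt _ (by omega)) h3

theorem sum_plain {ω : MulChar F L} (hω : IsTeich ω) (e : ℕ) :
    ∑ x : F, ω x ^ e = if e = 0 then (Fintype.card F : L) else
      if (Fintype.card F - 1) ∣ e then ((Fintype.card F : L) - 1) else 0 := by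
  split_ifs with h0 h1
  · subst h0; simp
  · rw [sum_congr rfl fun x _ => (MulChar.pow_apply' ω h0 x).symm, sum_char_pow hω, if_pos h1]
  · rw [sum_congr rfl fun x _ => (MulChar.pow_apply' ω h0 x).symm, sum_char_pow hω, if_neg h1]

theorem sum_twist {ω : MulChar F L} (hω : IsTeich ω) (b e : ℕ) :
    ∑ x : F, ((ω⁻¹) ^ b) x * ω x ^ e = if (Fintype.card F - 1) ∣ (e + b * (Fintype.card F - 2)) then
      ((Fintype.card F : L) - 1) else 0 := by
  rw [← sum_char_pow hω]
  refine sum_congr rfl fun x _ => ?_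
  by_cases hx : x = 0
  · subst hx
    rw [MulChar.map_zero, zero_mul, MulChar.map_zero]
  · have hu : IsUnit x := isUnit_iff_ne_zero.2 hx
    have hu' : x = (hu.unit : F) := rfl
    rw [inv_pow_eq, pow_add, MulChar.mul_apply, hu', MulChar.pow_apply_coe, MulChar.pow_apply_coe]
    ring

theorem norm_P_lt (hζ : IsPrimitiveRoot ζ P) (hL : ‖(P : L)‖ < 1) : ‖ζ - 1‖ < 1 := by
  by_contra h
  push Not at h
  have := norm_pi_pow hζ
  have h2 : 1 ≤ ‖ζ - 1‖ ^ (P - 1) := one_le_pow₀ h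
  linarith

theorem norm_pi_le (hζ : IsPrimitiveRoot ζ P) : ‖ζ - 1‖ ≤ 1 := by
  have h1 : ζ - 1 = ζ - ζ ^ 0 := by simp
  rw [sub_eq_add_neg]
  refine (IsUltrametricDist.norm_add_le_max _ _).trans ?_
  rw [norm_neg, norm_one, norm_zeta hζ, max_self]

theorem norm_pi_pos (hζ : IsPrimitiveRoot ζ P) : 0 < ‖ζ - 1‖ := by
  rw [norm_pos_iff, sub_ne_zero]
  exact hζ.ne_one hP.out.one_lt

theorem norm_card (hζ : IsPrimitiveRoot ζ P) :
    ‖(Fintype.card F : L)‖ = ‖ζ - 1‖ ^ ((P - 1) * deg P F) := by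
  rw [card_eq (P := P), pow_mul, norm_pi_pow hζ]
  push_cast
  rw [norm_pow]

theorem norm_card_lt (hζ : IsPrimitiveRoot ζ P) (hL : ‖(P : L)‖ < 1) :
    ‖(Fintype.card F : L)‖ < 1 := by
  rw [card_eq (P := P)]
  push_cast
  rw [norm_pow]
  exact pow_lt_one₀ (norm_nonneg _) hL (deg_pos (P := P) (F := F)).ne'

theorem norm_sub_one_of_lt {a : L} (ha : ‖a‖ < 1) : ‖a - 1‖ = 1 := by
  rw [← norm_neg, neg_sub, sub_eq_add_neg]
  have h1 : ‖(1 : L)‖ ≠ ‖-a‖ := by rw [norm_one, norm_neg]; exact ha.ne'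
  rw [IsUltrametricDist.norm_add_eq_max_of_norm_ne_norm h1, norm_one, norm_neg, max_eq_left ha.le]

theorem norm_card_sub_one (hζ : IsPrimitiveRoot ζ P) (hL : ‖(P : L)‖ < 1) :
    ‖(Fintype.card F : L) - 1‖ = 1 := norm_sub_one_of_lt (norm_card_lt hζ hL)

/-- the key congruence: `t(x) ≡ ∑ ω(x)^(P^i)` -/
theorem trace_congr (hζ : IsPrimitiveRoot ζ P) {ω : MulChar F L} (hω : IsTeich ω) (x : F) :
    ‖((Algebra.trace (ZMod P) F x).val : L) - ∑ i ∈ range (deg P F), ω x ^ (P ^ i)‖ < 1 := by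
  have hc : CharP F P := charPF
  have h1 : (((Algebra.trace (ZMod P) F x).val : ℕ) : F) = ∑ i ∈ range (deg P F), x ^ (P ^ i) := by
    have h2 := FiniteField.algebraMap_trace_eq_sum_pow (ZMod P) F x
    rw [Nat.card_eq_fintype_card, ZMod.card] at h2
    unfold deg
    rw [← h2]
    conv_rhs => rw [← ZMod.natCast_zmod_val (Algebra.trace (ZMod P) F x)]
    rw [map_natCast]
  have h3 := hω.natCast (Algebra.trace (ZMod P) F x).val
  have h4 := hω.sum (range (deg P F)) (fun i => x ^ (P ^ i))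
  rw [h1] at h3
  have h5 : ((Algebra.trace (ZMod P) F x).val : L) - ∑ i ∈ range (deg P F), ω x ^ (P ^ i)
      = (((Algebra.trace (ZMod P) F x).val : L) - ω (∑ i ∈ range (deg P F), x ^ (P ^ i)))
        - ((∑ i ∈ range (deg P F), ω (x ^ (P ^ i))) - ω (∑ i ∈ range (deg P F), x ^ (P ^ i))) := by
    simp only [map_pow]; ring
  rw [h5]
  exact norm_sub_lt' h3 h4

/-- the Gauss sum of the inverse Teichmueller character has the norm of `ζ - 1` -/
theorem gauss_one (hζ : IsPrimitiveRoot ζ P) (hL : ‖(P : L)‖ < 1) (hP2 : 2 < P)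
    {ω : MulChar F L} (hω : IsTeich ω) :
    ‖gaussSum (ω⁻¹) (psi F hζ)‖ = ‖ζ - 1‖ := by
  classical
  have hQ : Fintype.card F = P ^ deg P F := card_eq (P := P)
  have hr : 0 < deg P F := deg_pos (P := P) (F := F)
  have hQP : P ≤ Fintype.card F := by
    rw [hQ]
    calc P = P ^ 1 := (pow_one P).symm
      _ ≤ P ^ deg P F := Nat.pow_le_pow_right hP.out.pos hr
  have hne : (ω⁻¹) ^ 1 ≠ 1 := hω.inv_pow_ne_one one_pos (by omega)
  rw [pow_one] at hne
  have hs0 : ∑ x : F, (ω⁻¹) x = 0 := MulChar.sum_eq_zero_of_ne_one hne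
  -- t
  set t : F → ℕ := fun x => (Algebra.trace (ZMod P) F x).val with ht
  have e1 : gaussSum (ω⁻¹) (psi F hζ) = (∑ x : F, (ω⁻¹) x * (ζ ^ t x - 1 - t x * (ζ - 1)))
      + (∑ x : F, (ω⁻¹) x * t x) * (ζ - 1) := by
    unfold gaussSum
    rw [sum_mul, ← sum_add_distrib]
    have : ∀ x : F, (ω⁻¹) x * psi F hζ x = ((ω⁻¹) x * (ζ ^ t x - 1 - t x * (ζ - 1))
        + (ω⁻¹) x * t x * (ζ - 1)) + (ω⁻¹) x := by
      intro x; rw [psi_apply]; ring
    rw [sum_congr rfl fun x _ => this x, sum_add_distrib, hs0, add_zero]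
  have e2 : ‖(∑ x : F, (ω⁻¹) x * (t x : L)) + 1‖ < 1 := by
    have h1 : (∑ x : F, (ω⁻¹) x * ∑ i ∈ range (deg P F), ω x ^ (P ^ i)) = (Fintype.card F : L) - 1 := by
      simp only [mul_sum]
      rw [sum_comm]
      rw [sum_eq_single_of_mem 0 (mem_range.2 hr)]
      · have := sum_twist hω 1 1
        rw [pow_one] at this
        simp only [pow_zero]
        rw [this, if_pos]
        have : 1 + 1 * (Fintype.card F - 2) = Fintype.card F - 1 := by omega
        rw [this]
      · intro i hi hi0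
        have := sum_twist hω 1 (P ^ i)
        rw [pow_one] at this
        rw [this, if_neg]
        intro hd
        have hi' : i < deg P F := mem_range.1 hi
        have h2 : P ^ i + 1 * (Fintype.card F - 2) = (P ^ i - 1) + (Fintype.card F - 1) := by
          have : 0 < P ^ i := pow_pos hP.out.pos _
          omega
        rw [h2] at hd
        have h3 : (Fintype.card F - 1) ∣ P ^ i - 1 := (Nat.dvd_add_left (dvd_refl _)).1 hd
        have h4 : P ^ 1 ≤ P ^ i := Nat.pow_le_pow_right hP.out.pos (by omega)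
        have h5 : P ^ i < P ^ deg P F := Nat.pow_lt_pow_right hP.out.one_lt hi'
        rw [← hQ] at h5
        rw [pow_one] at h4
        exact absurd (Nat.le_of_dvd (by omega) h3) (by omega)
    have h2 : (∑ x : F, (ω⁻¹) x * (t x : L)) + 1
        = (∑ x : F, (ω⁻¹) x * ((t x : L) - ∑ i ∈ range (deg P F), ω x ^ (P ^ i))) + (Fintype.card F : L) := by
      have h3 : (∑ x : F, (ω⁻¹) x * ((t x : L) - ∑ i ∈ range (deg P F), ω x ^ (P ^ i)))
          = (∑ x : F, (ω⁻¹) x * (t x : L)) - ((Fintype.card F : L) - 1) := by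
        rw [← h1, ← sum_sub_distrib]
        refine sum_congr rfl fun x _ => by ring
      rw [h3]; ring
    rw [h2]
    refine lt_of_le_of_lt (IsUltrametricDist.norm_add_le_max _ _) (max_lt ?_ (norm_card_lt hζ hL))
    obtain ⟨C, hC, hC1⟩ : ∃ C : ℝ, (∀ x : F, ‖(t x : L) - ∑ i ∈ range (deg P F), ω x ^ (P ^ i)‖ ≤ C)
        ∧ C < 1 := by
      refine ⟨univ.sup' ⟨0, mem_univ _⟩ fun x : F => ‖(t x : L) - ∑ i ∈ range (deg P F), ω x ^ (P ^ i)‖,
        fun x => le_sup' (fun x : F => ‖(t x : L) - ∑ i ∈ range (deg P F), ω x ^ (P ^ i)‖) (mem_univ x), ?_⟩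
      rw [sup'_lt_iff]
      intro x _
      exact trace_congr hζ hω x
    have hC0 : 0 ≤ C := (norm_nonneg _).trans (hC 0)
    refine lt_of_le_of_lt (norm_sum_le_of _ _ C hC0 fun x _ => ?_) hC1
    rw [norm_mul]
    exact (mul_le_of_le_one_left (norm_nonneg _) (norm_mulChar_le _ _)).trans (hC x)
  have e3 : ‖∑ x : F, (ω⁻¹) x * (t x : L)‖ = 1 := by
    have h1 : (∑ x : F, (ω⁻¹) x * (t x : L)) = ((∑ x : F, (ω⁻¹) x * (t x : L)) + 1) - 1 := by ring
    rw [h1]
    exact norm_sub_one_of_lt e2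
  have hpi := norm_pi_pos hζ
  have hpi1 := norm_P_lt hζ hL
  have e4 : ‖∑ x : F, (ω⁻¹) x * (ζ ^ t x - 1 - t x * (ζ - 1))‖ ≤ ‖ζ - 1‖ ^ 2 := by
    refine norm_sum_le_of _ _ _ (by positivity) fun x _ => ?_
    rw [norm_mul]
    exact (mul_le_of_le_one_left (norm_nonneg _) (norm_mulChar_le _ _)).trans (norm_pow_expand hζ _)
  have e5 : ‖(∑ x : F, (ω⁻¹) x * (t x : L)) * (ζ - 1)‖ = ‖ζ - 1‖ := by
    rw [norm_mul, e3, one_mul]
  have e6 : ‖∑ x : F, (ω⁻¹) x * (ζ ^ t x - 1 - t x * (ζ - 1))‖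
      < ‖(∑ x : F, (ω⁻¹) x * (t x : L)) * (ζ - 1)‖ := by
    rw [e5]
    refine lt_of_le_of_lt e4 ?_
    rw [pow_two]
    exact mul_lt_of_lt_one_left hpi hpi1
  rw [e1, IsUltrametricDist.norm_add_eq_max_of_norm_ne_norm e6.ne, max_eq_right e6.le, e5]

end

end SlopeLP
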