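import Mathlib
import Pool.Agent.Lib_helper7.SLP.Gauss2

/-! Stickelberger's estimate: digit sums; the interpolation coefficients of the additive character. -/

open Finset

namespace SlopeLP

section

variable {L : Type*} [NormedField L] [IsUltrametricDist L]
variable {F : Type*} [Field F]
variable {P : ℕ} [hP : Fact P.Prime] [Algebra (ZMod P) F]
variable {ζ : L} [Fintype F]

/-- lower bound for the norm of a Gauss sum -/
theorem gauss_lower (hζ : IsPrimitiveRoot ζ P) (hL : ‖(P : L)‖ < 1) (hP2 : 2 < P)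
    {ω : MulChar F L} (hω : IsTeich ω) (j : ℕ) :
    j < Fintype.card F - 1 → ‖ζ - 1‖ ^ ds P j ≤ ‖gaussSum ((ω⁻¹) ^ j) (psi F hζ)‖ := by
  have hp0 := hP.out.pos
  have hpi := norm_pi_pos hζ
  induction j using Nat.strong_induction_on with
  | _ j ih =>
    intro hj
    by_cases hj0 : j = 0
    · subst hj0
      rw [ds_zero, pow_zero, pow_zero, gaussSum_one_left (psi_ne_one hζ), norm_neg, norm_one]
    · have hlt : j / P < j := Nat.div_lt_self (Nat.pos_of_ne_zero hj0) hP.out.one_lt
      have e1 : P * (j / P) + j % P = j := Nat.div_add_mod j P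
      have key : ∀ e : ℕ, e ≤ j % P →
          ‖ζ - 1‖ ^ (ds P (j / P) + e) ≤ ‖gaussSum ((ω⁻¹) ^ (P * (j / P) + e)) (psi F hζ)‖ := by
        intro e
        induction e with
        | zero =>
          intro _
          rw [add_zero, add_zero, mul_comm P, pow_mul, gauss_frob]
          exact ih _ hlt (by omega)
        | succ e ihe =>
          intro he
          have h1 := ihe (by omega)
          have hne : (ω⁻¹) ^ (P * (j / P) + e) * (ω⁻¹) ≠ 1 := by
            rw [← pow_succ]
            exact hω.inv_pow_ne_one (by omega) (by omega)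
          have h2 := jacobiSum_mul_nontrivial hne (psi F hζ)
          have h3 : ‖gaussSum ((ω⁻¹) ^ (P * (j / P) + e) * (ω⁻¹)) (psi F hζ)‖
              * ‖jacobiSum ((ω⁻¹) ^ (P * (j / P) + e)) (ω⁻¹)‖
              = ‖gaussSum ((ω⁻¹) ^ (P * (j / P) + e)) (psi F hζ)‖ * ‖ζ - 1‖ := by
            rw [← norm_mul, h2, norm_mul, gauss_one hζ hL hP2 hω]
          rw [← add_assoc, pow_succ]
          calc ‖ζ - 1‖ ^ (ds P (j / P) + e) * ‖ζ - 1‖
              ≤ ‖gaussSum ((ω⁻¹) ^ (P * (j / P) + e)) (psi F hζ)‖ * ‖ζ - 1‖ :=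
                mul_le_mul_of_nonneg_right h1 hpi.le
            _ = ‖gaussSum ((ω⁻¹) ^ (P * (j / P) + e) * (ω⁻¹)) (psi F hζ)‖
              * ‖jacobiSum ((ω⁻¹) ^ (P * (j / P) + e)) (ω⁻¹)‖ := h3.symm
            _ ≤ ‖gaussSum ((ω⁻¹) ^ (P * (j / P) + e) * (ω⁻¹)) (psi F hζ)‖ :=
                mul_le_of_le_one_right (norm_nonneg _) (norm_jacobi_le _ _)
            _ = _ := by rw [← pow_succ, add_assoc]
      have := key (j % P) le_rfl
      have h4 : ds P j = j % P + ds P (j / P) := by
        conv_lhs => rw [← e1]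
        rw [ds_mul_add hP.out.one_lt _ _ (Nat.mod_lt _ hp0)]
      rw [e1, add_comm (ds P (j / P)), ← h4] at this
      exact this

/-- upper bound for the norm of a Gauss sum -/
theorem gauss_upper (hζ : IsPrimitiveRoot ζ P) (hL : ‖(P : L)‖ < 1) (hP2 : 2 < P)
    {ω : MulChar F L} (hω : IsTeich ω) (j : ℕ) (hj : j < Fintype.card F - 1) :
    ‖gaussSum ((ω⁻¹) ^ j) (psi F hζ)‖ ≤ ‖ζ - 1‖ ^ ds P j := by
  have hQ : Fintype.card F = P ^ deg P F := card_eq (P := P)
  have hpi := norm_pi_pos hζ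
  by_cases hj0 : j = 0
  · subst hj0
    rw [ds_zero, pow_zero, pow_zero, gaussSum_one_left (psi_ne_one hζ), norm_neg, norm_one]
  · have hne : (ω⁻¹) ^ j ≠ 1 := hω.inv_pow_ne_one (Nat.pos_of_ne_zero hj0) hj
    have h1 := gaussSum_mul_gaussSum_eq_card hne (AddChar.IsPrimitive.of_ne_one (psi_ne_one (F := F) hζ))
    have h2 : ((ω⁻¹) ^ j)⁻¹ = (ω⁻¹) ^ (Fintype.card F - 1 - j) := by
      rw [inv_eq_iff_mul_eq_one, ← pow_add]
      have : j + (Fintype.card F - 1 - j) = Fintype.card F - 1 := by omega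
      rw [this, mulChar_pow_card_sub_one]
    have h3 := mul_gaussSum_inv_eq_gaussSum ((ω⁻¹) ^ j)⁻¹ (psi F hζ)
    have h4 : ‖gaussSum ((ω⁻¹) ^ j)⁻¹ (psi F hζ)⁻¹‖ = ‖gaussSum ((ω⁻¹) ^ j)⁻¹ (psi F hζ)‖ := by
      rw [← h3, norm_mul, norm_mulChar _ (neg_ne_zero.2 one_ne_zero), one_mul]
    have h5 : ‖gaussSum ((ω⁻¹) ^ j) (psi F hζ)‖ * ‖gaussSum ((ω⁻¹) ^ (Fintype.card F - 1 - j)) (psi F hζ)‖
        = ‖ζ - 1‖ ^ ((P - 1) * deg P F) := by
      rw [← norm_card (F := F) hζ, ← h1, norm_mul, h4, h2]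
    have h6 := gauss_lower hζ hL hP2 hω (Fintype.card F - 1 - j) (by omega)
    have h7 := ds_compl hP.out.one_lt (deg P F) j (by omega)
    rw [← hQ] at h7
    have h8 : (P - 1) * deg P F = ds P j + ds P (Fintype.card F - 1 - j) := by
      rw [mul_comm]; omega
    rw [h8, pow_add] at h5
    have h9 : 0 < ‖ζ - 1‖ ^ ds P (Fintype.card F - 1 - j) := pow_pos hpi _
    by_contra hcon
    push Not at hcon
    have h10 : ‖ζ - 1‖ ^ ds P j * ‖ζ - 1‖ ^ ds P (Fintype.card F - 1 - j)
        < ‖gaussSum ((ω⁻¹) ^ j) (psi F hζ)‖ * ‖gaussSum ((ω⁻¹) ^ (Fintype.card F - 1 - j)) (psi F hζ)‖ :=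
      mul_lt_mul hcon h6 h9 (norm_nonneg _)
    rw [h5] at h10
    exact lt_irrefl _ h10

/-- the interpolation coefficients -/
noncomputable def co (hζ : IsPrimitiveRoot ζ P) (ω : MulChar F L) (j : ℕ) : L :=
  if j = 0 then 1 else if j = Fintype.card F - 1 then -(Fintype.card F : L) / ((Fintype.card F : L) - 1)
  else gaussSum ((ω⁻¹) ^ j) (psi F hζ) / ((Fintype.card F : L) - 1)

theorem norm_co_le (hζ : IsPrimitiveRoot ζ P) (hL : ‖(P : L)‖ < 1) (hP2 : 2 < P)
    {ω : MulChar F L} (hω : IsTeich ω) (j : ℕ) (hj : j < Fintype.card F) :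
    ‖co hζ ω j‖ ≤ ‖ζ - 1‖ ^ ds P j := by
  have hQ : Fintype.card F = P ^ deg P F := card_eq (P := P)
  unfold co
  split_ifs with h0 h1
  · subst h0; rw [norm_one, ds_zero, pow_zero]
  · rw [norm_div, norm_neg, norm_card_sub_one hζ hL, div_one, norm_card hζ]
    have h7 := ds_compl hP.out.one_lt (deg P F) j (by omega)
    have h8 : P ^ deg P F - 1 - j = 0 := by omega
    rw [h8, ds_zero, zero_add, mul_comm] at h7
    rw [h7]
  · rw [norm_div, norm_card_sub_one hζ hL, div_one]
    exact gauss_upper hζ hL hP2 hω j (by omega)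

theorem interp (hζ : IsPrimitiveRoot ζ P) (hL : ‖(P : L)‖ < 1)
    {ω : MulChar F L} (hω : IsTeich ω) (hc2 : 2 < Fintype.card F) (t : F) :
    psi F hζ t = ∑ j ∈ range (Fintype.card F), co hζ ω j * ω t ^ j := by
  classical
  have hq1 : (Fintype.card F : L) - 1 ≠ 0 := by
    rw [← norm_pos_iff, norm_card_sub_one hζ hL]; exact one_pos
  by_cases ht : t = 0
  · subst ht
    rw [AddChar.map_zero_eq_one, ω.map_zero, sum_eq_single_of_mem 0 (mem_range.2 (by omega))]
    · simp [co]
    · intro j _ hj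
      rw [zero_pow hj, mul_zero]
  · -- Fourier inversion
    have h1 : ∑ j ∈ range (Fintype.card F - 1), gaussSum ((ω⁻¹) ^ j) (psi F hζ) * ω t ^ j
        = ((Fintype.card F : L) - 1) * psi F hζ t := by
      have hu : IsUnit t := isUnit_iff_ne_zero.2 ht
      have h2 : ∀ j ∈ range (Fintype.card F - 1), gaussSum ((ω⁻¹) ^ j) (psi F hζ) * ω t ^ j
          = ∑ x : F, (if x = 0 then 0 else (ω (t / x)) ^ j * psi F hζ x) := by
        intro j _
        unfold gaussSum
        rw [sum_mul]
        refine sum_congr rfl fun x _ => ?_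
        split_ifs with hx
        · subst hx; rw [MulChar.map_zero, zero_mul, zero_mul]
        · have hux : IsUnit x := isUnit_iff_ne_zero.2 hx
          have hx' : x = (hux.unit : F) := rfl
          have h3 : ((ω⁻¹) ^ j) x = (ω x)⁻¹ ^ j := by
            rw [hx', MulChar.pow_apply_coe, MulChar.inv_apply_eq_inv', ← hx']
          have h4 : ω (t / x) * ω x = ω t := by rw [← map_mul, div_mul_cancel₀ _ hx]
          have h5 : ω x ≠ 0 := by rw [← norm_pos_iff, norm_mulChar ω hx]; exact one_pos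
          have h6 : ω (t / x) = ω t * (ω x)⁻¹ := by rw [← h4, mul_assoc, mul_inv_cancel₀ h5, mul_one]
          rw [h3, h6, mul_pow]
          ring
      rw [sum_congr rfl h2, sum_comm]
      rw [sum_eq_single_of_mem t (mem_univ t)]
      · simp only [if_neg ht]
        rw [← sum_mul, div_self ht]
        simp only [map_one, one_pow, sum_const, card_range, nsmul_eq_mul, mul_one]
        rw [Nat.cast_sub (by omega), Nat.cast_one]
      · intro x _ hx
        by_cases hx0 : x = 0
        · simp [hx0]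
        · simp only [if_neg hx0]
          rw [← sum_mul]
          have h4 : ω (t / x) ≠ 1 := by
            intro h5
            have := hω.eq_one h5
            rw [div_eq_one_iff_eq hx0] at this
            exact hx this.symm
          have h5 : (∑ j ∈ range (Fintype.card F - 1), ω (t / x) ^ j) * (ω (t / x) - 1) = 0 := by
            rw [geom_sum_mul, ← map_pow, FiniteField.pow_card_sub_one_eq_one _ (div_ne_zero ht hx0),
              map_one, sub_self]
          rcases mul_eq_zero.1 h5 with h6 | h6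
          · rw [h6, zero_mul]
          · exact absurd (sub_eq_zero.1 h6) h4
    obtain ⟨n, hn⟩ : ∃ n, Fintype.card F = n + 2 := ⟨Fintype.card F - 2, by omega⟩
    have hn1 : Fintype.card F - 1 = n + 1 := by omega
    have hn0 : 0 < n := by omega
    rw [hn1, sum_range_succ'] at h1
    rw [hn, sum_range_succ, sum_range_succ']
    have h6 : ∀ j ∈ range n, co hζ ω (j + 1) * ω t ^ (j + 1)
        = gaussSum ((ω⁻¹) ^ (j + 1)) (psi F hζ) * ω t ^ (j + 1) / ((Fintype.card F : L) - 1) := by
      intro j hj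
      rw [mem_range] at hj
      unfold co
      rw [if_neg (by omega), if_neg (by omega)]
      ring
    rw [sum_congr rfl h6, ← sum_div]
    have h7 : co hζ ω 0 = 1 := by simp [co]
    have h8 : co hζ ω (n + 1) = -(Fintype.card F : L) / ((Fintype.card F : L) - 1) := by
      unfold co
      rw [if_neg (by omega), if_pos (by omega)]
    have h9 : ω t ^ (n + 1) = 1 := by
      rw [← hn1, ← map_pow, FiniteField.pow_card_sub_one_eq_one _ ht, map_one]
    rw [pow_zero, pow_zero, gaussSum_one_left (psi_ne_one hζ)] at h1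
    rw [h7, h8, h9, pow_zero]
    have h10 : ∑ k ∈ range n, gaussSum (ω⁻¹ ^ (k + 1)) (psi F hζ) * ω t ^ (k + 1)
        = ((Fintype.card F : L) - 1) * psi F hζ t + 1 := by
      linear_combination h1
    rw [h10]
    field_simp
    ring

end

end SlopeLP
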