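import Mathlib
import Pool.Agent.Lib_helper7.SLP.Gauss3

/-! The expansion of exponential sums and the bound by digit sums. -/

open Finset

namespace SlopeLP

section

variable {L : Type*} [NormedField L] [IsUltrametricDist L]
variable {F : Type*} [Field F]
variable {P : ℕ} [hP : Fact P.Prime] [Algebra (ZMod P) F]
variable {ζ : L} [Fintype F]
variable {ι κ α : Type*} [Fintype ι] [Fintype κ] [Fintype α] [DecidableEq ι] [DecidableEq κ]
  [DecidableEq α]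

omit [Fintype F] [IsUltrametricDist L] [DecidableEq α] in
theorem psi_sum (hζ : IsPrimitiveRoot ζ P) (t : α → F) :
    psi F hζ (∑ a, t a) = ∏ a, psi F hζ (t a) := by
  classical
  have : ∀ s : Finset α, psi F hζ (∑ a ∈ s, t a) = ∏ a ∈ s, psi F hζ (t a) := by
    intro s
    induction s using Finset.induction_on with
    | empty => simp
    | insert a s ha ih => rw [sum_insert ha, prod_insert ha, AddChar.map_add_eq_mul, ih]
  exact this univ

theorem expand_eq (hζ : IsPrimitiveRoot ζ P) (hL : ‖(P : L)‖ < 1)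
    {ω : MulChar F L} (hω : IsTeich ω) (hc2 : 2 < Fintype.card F)
    (A : α → F) (e : α → ι → ℕ) (f : α → κ → ℕ) (b : κ → ℕ) :
    ∑ x : ι → F, ∑ s : κ → F, (∏ k, ((ω⁻¹) ^ (b k)) (s k)) *
      psi F hζ (∑ a, A a * (∏ i, x i ^ e a i) * ∏ k, s k ^ f a k)
    = ∑ w ∈ Fintype.piFinset (fun _ : α => range (Fintype.card F)),
      (∏ a, (co hζ ω (w a) * ω (A a) ^ w a)) * (∏ i, ∑ y : F, ω y ^ (∑ a, w a * e a i)) *
        ∏ k, ∑ s : F, ((ω⁻¹) ^ (b k)) s * ω s ^ (∑ a, w a * f a k) := by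
  have h1 : ∀ (x : ι → F) (s : κ → F),
      psi F hζ (∑ a, A a * (∏ i, x i ^ e a i) * ∏ k, s k ^ f a k)
      = ∑ w ∈ Fintype.piFinset (fun _ : α => range (Fintype.card F)),
        (∏ a, (co hζ ω (w a) * ω (A a) ^ w a)) * (∏ i, ω (x i) ^ (∑ a, w a * e a i)) *
        ∏ k, ω (s k) ^ (∑ a, w a * f a k) := by
    intro x s
    rw [psi_sum]
    rw [prod_congr rfl fun a _ => interp hζ hL hω hc2 _]
    rw [prod_univ_sum]
    refine sum_congr rfl fun w _ => ?_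
    have h2 : ∀ a, co hζ ω (w a) * ω (A a * (∏ i, x i ^ e a i) * ∏ k, s k ^ f a k) ^ w a
        = (co hζ ω (w a) * ω (A a) ^ w a) * (∏ i, ω (x i) ^ (w a * e a i))
          * ∏ k, ω (s k) ^ (w a * f a k) := by
      intro a
      rw [map_mul, map_mul, map_prod, map_prod, mul_pow, mul_pow, ← prod_pow, ← prod_pow]
      have e1 : ∀ i, ω (x i ^ e a i) ^ w a = ω (x i) ^ (w a * e a i) := by
        intro i; rw [map_pow, ← pow_mul, mul_comm]
      have e2 : ∀ k, ω (s k ^ f a k) ^ w a = ω (s k) ^ (w a * f a k) := by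
        intro k; rw [map_pow, ← pow_mul, mul_comm]
      rw [prod_congr rfl fun i _ => e1 i, prod_congr rfl fun k _ => e2 k]
      ring
    rw [prod_congr rfl fun a _ => h2 a, prod_mul_distrib, prod_mul_distrib]
    congr 1
    · congr 1
      rw [prod_comm]
      refine prod_congr rfl fun i _ => ?_
      rw [prod_pow_eq_pow_sum]
    · rw [prod_comm]
      refine prod_congr rfl fun k _ => ?_
      rw [prod_pow_eq_pow_sum]
  simp only [h1, mul_sum]
  rw [sum_congr rfl fun x _ => sum_comm, sum_comm]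
  refine sum_congr rfl fun w _ => ?_
  have h3 : ∀ (g : ι → F → L), ∑ x : ι → F, ∏ i, g i (x i) = ∏ i, ∑ y : F, g i y := by
    intro g
    rw [prod_univ_sum, Fintype.piFinset_univ]
  have h4 : ∀ (g : κ → F → L), ∑ x : κ → F, ∏ i, g i (x i) = ∏ i, ∑ y : F, g i y := by
    intro g
    rw [prod_univ_sum, Fintype.piFinset_univ]
  rw [← h3 (fun i y => ω y ^ (∑ a, w a * e a i)),
    ← h4 (fun k s => ((ω⁻¹) ^ (b k)) s * ω s ^ (∑ a, w a * f a k))]
  have h5 : ∀ (x : ι → F) (s : κ → F), (∏ k, ((ω⁻¹) ^ (b k)) (s k)) *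
      ((∏ a, (co hζ ω (w a) * ω (A a) ^ w a)) * (∏ i, ω (x i) ^ (∑ a, w a * e a i)) *
        ∏ k, ω (s k) ^ (∑ a, w a * f a k))
      = (∏ a, (co hζ ω (w a) * ω (A a) ^ w a)) * (∏ i, ω (x i) ^ (∑ a, w a * e a i)) *
        ∏ k, (((ω⁻¹) ^ (b k)) (s k) * ω (s k) ^ (∑ a, w a * f a k)) := by
    intro x s
    have h6 : ∏ k, (((ω⁻¹) ^ (b k)) (s k) * ω (s k) ^ (∑ a, w a * f a k))
        = (∏ k, ((ω⁻¹) ^ (b k)) (s k)) * ∏ k, ω (s k) ^ (∑ a, w a * f a k) := prod_mul_distrib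
    rw [h6]
    ring
  simp only [h5]
  rw [mul_sum (s := (univ : Finset (ι → F))), sum_mul]
  refine sum_congr rfl fun x _ => ?_
  rw [mul_sum]

theorem expand_bound (hζ : IsPrimitiveRoot ζ P) (hL : ‖(P : L)‖ < 1) (hP2 : 2 < P)
    {ω : MulChar F L} (hω : IsTeich ω)
    (A : α → F) (e : α → ι → ℕ) (f : α → κ → ℕ) (b : κ → ℕ) (R : ℕ)
    (hR : ∀ w : α → ℕ, (∀ a, w a < Fintype.card F) →
      (∀ i, (Fintype.card F - 1) ∣ ∑ a, w a * e a i) →
      (∀ k, (Fintype.card F - 1) ∣ (∑ a, w a * f a k) + b k * (Fintype.card F - 2)) →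
      R ≤ ∑ a, ds P (w a) + (P - 1) * deg P F * #{i | ∑ a, w a * e a i = 0}) :
    ‖∑ x : ι → F, ∑ s : κ → F, (∏ k, ((ω⁻¹) ^ (b k)) (s k)) *
      psi F hζ (∑ a, A a * (∏ i, x i ^ e a i) * ∏ k, s k ^ f a k)‖ ≤ ‖ζ - 1‖ ^ R := by
  have hQ : Fintype.card F = P ^ deg P F := card_eq (P := P)
  have hr : 0 < deg P F := deg_pos (P := P) (F := F)
  have hQP : P ≤ Fintype.card F := by
    rw [hQ]
    calc P = P ^ 1 := (pow_one P).symm
      _ ≤ P ^ deg P F := Nat.pow_le_pow_right hP.out.pos hr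
  have hpi := norm_pi_pos hζ
  have hpi1 := (norm_P_lt hζ hL).le
  rw [expand_eq hζ hL hω (by omega)]
  refine norm_sum_le_of _ _ _ (pow_nonneg hpi.le _) fun w hw => ?_
  rw [Fintype.mem_piFinset] at hw
  have hw' : ∀ a, w a < Fintype.card F := fun a => mem_range.1 (hw a)
  rw [norm_mul, norm_mul, norm_prod, norm_prod, norm_prod]
  have c1 : ‖(Fintype.card F : L) - 1‖ = 1 := norm_card_sub_one hζ hL
  by_cases H1 : ∀ i, (Fintype.card F - 1) ∣ ∑ a, w a * e a i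
  swap
  · push Not at H1
    obtain ⟨i, hi⟩ := H1
    have h0 : ∑ y : F, ω y ^ (∑ a, w a * e a i) = 0 := by
      rw [sum_plain hω, if_neg, if_neg hi]
      intro h0; rw [h0] at hi; exact hi (dvd_zero _)
    have h1 : ∏ i, ‖∑ y : F, ω y ^ (∑ a, w a * e a i)‖ = 0 :=
      prod_eq_zero (mem_univ i) (by rw [h0, norm_zero])
    rw [h1, mul_zero, zero_mul]
    exact pow_nonneg hpi.le _
  by_cases H2 : ∀ k, (Fintype.card F - 1) ∣ (∑ a, w a * f a k) + b k * (Fintype.card F - 2)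
  swap
  · push Not at H2
    obtain ⟨k, hk⟩ := H2
    have h0 : ∑ s : F, ((ω⁻¹) ^ (b k)) s * ω s ^ (∑ a, w a * f a k) = 0 := by
      rw [sum_twist hω, if_neg hk]
    have h1 : ∏ k, ‖∑ s : F, ((ω⁻¹) ^ (b k)) s * ω s ^ (∑ a, w a * f a k)‖ = 0 :=
      prod_eq_zero (mem_univ k) (by rw [h0, norm_zero])
    rw [h1, mul_zero]
    exact pow_nonneg hpi.le _
  have b1 : ∏ a, ‖co hζ ω (w a) * ω (A a) ^ w a‖ ≤ ‖ζ - 1‖ ^ ∑ a, ds P (w a) := by
    rw [← prod_pow_eq_pow_sum]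
    refine prod_le_prod (fun a _ => norm_nonneg _) fun a _ => ?_
    rw [norm_mul, norm_pow]
    have h1 := norm_co_le hζ hL hP2 hω (w a) (hw' a)
    exact (mul_le_of_le_one_right (norm_nonneg _)
      (pow_le_one₀ (norm_nonneg _) (norm_mulChar_le ω _))).trans h1
  have b2 : ∏ i, ‖∑ y : F, ω y ^ (∑ a, w a * e a i)‖
      ≤ ‖ζ - 1‖ ^ ((P - 1) * deg P F * #{i | ∑ a, w a * e a i = 0}) := by
    have h1 : ∏ i, (if ∑ a, w a * e a i = 0 then ‖ζ - 1‖ ^ ((P - 1) * deg P F) else 1)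
        = ‖ζ - 1‖ ^ ((P - 1) * deg P F * #{i | ∑ a, w a * e a i = 0}) := by
      rw [prod_ite, prod_const, prod_const_one, mul_one, ← pow_mul]
    rw [← h1]
    refine prod_le_prod (fun a _ => norm_nonneg _) fun i _ => ?_
    rw [sum_plain hω]
    by_cases h0 : ∑ a, w a * e a i = 0
    · rw [if_pos h0, if_pos h0, norm_card hζ]
    · rw [if_neg h0, if_neg h0, if_pos (H1 i), c1]
  have b3 : ∏ k, ‖∑ s : F, ((ω⁻¹) ^ (b k)) s * ω s ^ (∑ a, w a * f a k)‖ ≤ 1 := by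
    refine prod_le_one (fun k _ => norm_nonneg _) fun k _ => ?_
    rw [sum_twist hω, if_pos (H2 k), c1]
  have h9 := hR w hw' H1 H2
  calc (∏ a, ‖co hζ ω (w a) * ω (A a) ^ w a‖) * (∏ i, ‖∑ y : F, ω y ^ (∑ a, w a * e a i)‖) *
      ∏ k, ‖∑ s : F, ((ω⁻¹) ^ (b k)) s * ω s ^ (∑ a, w a * f a k)‖
      ≤ (‖ζ - 1‖ ^ ∑ a, ds P (w a)) * (‖ζ - 1‖ ^ ((P - 1) * deg P F * #{i | ∑ a, w a * e a i = 0})) * 1 := by
        refine mul_le_mul (mul_le_mul b1 b2 (prod_nonneg fun _ _ => norm_nonneg _) (by positivity)) b3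
          (prod_nonneg fun _ _ => norm_nonneg _) (by positivity)
    _ = ‖ζ - 1‖ ^ (∑ a, ds P (w a) + (P - 1) * deg P F * #{i | ∑ a, w a * e a i = 0}) := by
        rw [mul_one, ← pow_add]
    _ ≤ ‖ζ - 1‖ ^ R := pow_le_pow_of_le_one hpi.le hpi1 h9

end

end SlopeLP
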