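import Mathlib
import Pool.Agent.Lib_helper7.SLP.Expand

/-! From the linear program to the slope bound. -/

open Finset

namespace SlopeLP

section

variable {L : Type*} [NormedField L] [IsUltrametricDist L]
variable {F : Type*} [Field F]
variable {P : ℕ} [hP : Fact P.Prime] [Algebra (ZMod P) F]
variable {ζ : L} [Fintype F]
variable {ι κ α : Type*} [Fintype ι] [Fintype κ] [Fintype α] [DecidableEq ι] [DecidableEq κ]
  [DecidableEq α]

omit [DecidableEq κ] [DecidableEq α] in
/-- the linear programming bound for digit sums -/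
theorem lin_prog (r : ℕ) (m : ℕ) (hm0 : 0 < m) (hm : m ∣ P - 1)
    (e : α → ι → ℕ) (f : α → κ → ℕ) (c : κ → ℕ) (ρ : ℚ)
    (H : ∀ u : α → ℚ, (∀ a, 0 ≤ u a) → (∀ i, ∃ n : ℤ, ∑ a, u a * e a i = n) →
      (∀ k, ∃ n : ℤ, ∑ a, u a * f a k = c k / m + n) →
      ρ ≤ ∑ a, u a + #{i | ∑ a, u a * e a i = 0})
    (w : α → ℕ) (hw : ∀ a, w a < P ^ r)
    (H1 : ∀ i, (P ^ r - 1) ∣ ∑ a, w a * e a i)
    (H2 : ∀ k, (P ^ r - 1) ∣ (∑ a, w a * f a k) + ((P ^ r - 1) / m * c k) * (P ^ r - 2))
    (hr : 0 < r) :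
    ((P - 1 : ℕ) : ℚ) * r * ρ ≤ ∑ a, (ds P (w a) : ℚ)
      + ((P - 1 : ℕ) : ℚ) * r * #{i | ∑ a, w a * e a i = 0} := by
  have hP1 : 1 < P := hP.out.one_lt
  have hQ2 : 2 ≤ P ^ r := by
    calc 2 ≤ P := hP.out.two_le
      _ = P ^ 1 := (pow_one P).symm
      _ ≤ P ^ r := Nat.pow_le_pow_right hP.out.pos hr
  set Q : ℕ := P ^ r with hQdef
  have hQ1 : (0 : ℚ) < (Q : ℚ) - 1 := by
    have : (2 : ℚ) ≤ (Q : ℚ) := by exact_mod_cast hQ2
    linarith
  have hPq : (0 : ℚ) < (P : ℚ) - 1 := by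
    have : (2 : ℚ) ≤ (P : ℚ) := by exact_mod_cast hP.out.two_le
    linarith
  have hmQ : m ∣ Q - 1 := hm.trans (by
    have := Nat.sub_dvd_pow_sub_pow P 1 r
    rwa [one_pow] at this)
  have hmq : (0 : ℚ) < m := by exact_mod_cast hm0
  -- key bound for every shift
  have key : ∀ t ∈ range r, ρ ≤ ∑ a, (shift P r t (w a) : ℚ) / ((Q : ℚ) - 1)
      + #{i | ∑ a, w a * e a i = 0} := by
    intro t ht
    rw [mem_range] at ht
    obtain ⟨zz, hzz⟩ : ∃ zz : α → ℕ, ∀ a, w a / P ^ (r - t) = zz a := ⟨_, fun _ => rfl⟩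
    have hsh : ∀ a, (shift P r t (w a) : ℚ) / ((Q : ℚ) - 1)
        = (P : ℚ) ^ t * (w a / ((Q : ℚ) - 1)) - (zz a : ℚ) := by
      intro a
      have h1 : (shift P r t (w a) : ℚ)
          = (P : ℚ) ^ t * w a - ((Q : ℚ) - 1) * (zz a : ℚ) := by
        unfold shift
        rw [hQdef, hzz a]; push_cast; ring
      rw [h1]
      field_simp
    have h := H (fun a => (shift P r t (w a) : ℚ) / ((Q : ℚ) - 1)) ?_ ?_ ?_
    · refine h.trans (add_le_add le_rfl ?_)
      have hsub : (univ.filter fun i => ∑ a, (shift P r t (w a) : ℚ) / ((Q : ℚ) - 1) * e a i = 0)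
          ⊆ univ.filter fun i => ∑ a, w a * e a i = 0 := by
        intro i hi
        rw [mem_filter] at hi ⊢
        refine ⟨mem_univ _, ?_⟩
        rw [sum_eq_zero_iff_of_nonneg] at hi
        · refine sum_eq_zero fun a _ => ?_
          have h2 := hi.2 a (mem_univ a)
          rcases mul_eq_zero.1 h2 with h3 | h3
          · have h4 : (shift P r t (w a) : ℚ) = 0 := by
              rcases div_eq_zero_iff.1 h3 with h5 | h5
              · exact h5
              · exact absurd h5 hQ1.ne'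
            have h5 : shift P r t (w a) = 0 := by exact_mod_cast h4
            by_contra h6
            have h7 : 0 < w a := Nat.pos_of_ne_zero fun h8 => h6 (by rw [h8, zero_mul])
            exact absurd ((shift_bound hP1 r t (w a) ht).2 h7) (by omega)
          · have h4 : e a i = 0 := by exact_mod_cast h3
            rw [h4, mul_zero]
        · intro a _
          have := (shift_bound hP1 r t (w a) ht).1
          have h2 : (0 : ℚ) ≤ (shift P r t (w a) : ℚ) := by exact_mod_cast this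
          positivity
      exact_mod_cast card_le_card hsub
    · intro a
      have := (shift_bound hP1 r t (w a) ht).1
      have h2 : (0 : ℚ) ≤ (shift P r t (w a) : ℚ) := by exact_mod_cast this
      exact div_nonneg h2 hQ1.le
    · intro i
      obtain ⟨n, hn⟩ := H1 i
      refine ⟨(P : ℤ) ^ t * n - ∑ a, (zz a : ℤ) * e a i, ?_⟩
      simp only [hsh, sub_mul, sum_sub_distrib]
      have h1 : ∑ a, (P : ℚ) ^ t * ((w a : ℚ) / ((Q : ℚ) - 1)) * (e a i : ℚ)
          = (P : ℚ) ^ t * ((∑ a, (w a : ℚ) * e a i) / ((Q : ℚ) - 1)) := by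
        rw [sum_div, mul_sum]
        refine sum_congr rfl fun a _ => by ring
      have h2 : (∑ a, (w a : ℚ) * e a i) = ((Q : ℚ) - 1) * n := by
        have : ((∑ a, w a * e a i : ℕ) : ℚ) = (((Q - 1) * n : ℕ) : ℚ) := by rw [hn]
        push_cast [Nat.cast_sub (by omega : 1 ≤ Q)] at this
        exact this
      rw [h1, h2, mul_div_cancel_left₀ _ hQ1.ne']
      push_cast
      ring
    · intro k
      obtain ⟨n, hn⟩ := H2 k
      obtain ⟨s, hs⟩ : ∃ s, Q - 1 = m * s := hmQ
      have hdiv : (Q - 1) / m = s := by rw [hs]; exact Nat.mul_div_cancel_left _ hm0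
      have hPt : m ∣ P ^ t - 1 := hm.trans (by
        have := Nat.sub_dvd_pow_sub_pow P 1 t
        rwa [one_pow] at this)
      obtain ⟨z, hz⟩ := hPt
      have hz' : (P : ℚ) ^ t - 1 = m * z := by
        have h1 : 1 ≤ P ^ t := Nat.one_le_pow _ _ hP.out.pos
        have h2 : ((P ^ t - 1 : ℕ) : ℚ) = ((m * z : ℕ) : ℚ) := by rw [hz]
        push_cast [Nat.cast_sub h1] at h2
        exact h2
      have hs' : (Q : ℚ) - 1 = m * s := by
        have h2 : ((Q - 1 : ℕ) : ℚ) = ((m * s : ℕ) : ℚ) := by rw [hs]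
        push_cast [Nat.cast_sub (by omega : 1 ≤ Q)] at h2
        exact h2
      refine ⟨(z : ℤ) * c k + (P : ℤ) ^ t * (n - s * c k)
        - ∑ a, (zz a : ℤ) * f a k, ?_⟩
      -- need  sum w f = s c + (Q-1)(n - s c)
      simp only [hsh, sub_mul, sum_sub_distrib]
      have h1 : ∑ a, (P : ℚ) ^ t * ((w a : ℚ) / ((Q : ℚ) - 1)) * (f a k : ℚ)
          = (P : ℚ) ^ t * ((∑ a, (w a : ℚ) * f a k) / ((Q : ℚ) - 1)) := by
        rw [sum_div, mul_sum]
        refine sum_congr rfl fun a _ => by ring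
      have h2 : (∑ a, (w a : ℚ) * f a k) = ((Q : ℚ) - 1) * n - s * c k * (((Q : ℚ) - 1) - 1) := by
        have h3 : (((∑ a, w a * f a k) + ((Q - 1) / m * c k) * (Q - 2) : ℕ) : ℚ)
          = (((Q - 1) * n : ℕ) : ℚ) := by rw [hn]
        rw [hdiv] at h3
        push_cast [Nat.cast_sub (by omega : 1 ≤ Q), Nat.cast_sub (by omega : 2 ≤ Q)] at h3
        linarith
      have h4 : (∑ a, (w a : ℚ) * f a k) / ((Q : ℚ) - 1) = n - s * c k + c k / m := by
        rw [h2, div_eq_iff hQ1.ne']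
        have : ((Q : ℚ) - 1) * (c k / m) = s * c k := by
          rw [hs']; field_simp
        linear_combination -this
      rw [h1, h4]
      push_cast
      have h5 : (P : ℚ) ^ t * (c k / m) = c k / m + z * c k := by
        have : (P : ℚ) ^ t = 1 + m * z := by linarith
        rw [this]; field_simp
      linear_combination h5
  have hsum := sum_le_sum key
  rw [sum_const, card_range, nsmul_eq_mul, sum_add_distrib, sum_const, card_range, nsmul_eq_mul,
    sum_comm] at hsum
  have h6 : ∀ a, ∑ t ∈ range r, (shift P r t (w a) : ℚ) / ((Q : ℚ) - 1)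
      = (ds P (w a) : ℚ) / ((P : ℚ) - 1) := by
    intro a
    have h7 := sum_shift hP1 r (w a) (hw a)
    have h8 : ((P : ℚ) - 1) * ∑ t ∈ range r, (shift P r t (w a) : ℚ) = ((Q : ℚ) - 1) * ds P (w a) := by
      rw [hQdef]
      exact_mod_cast h7
    rw [← sum_div, div_eq_div_iff hQ1.ne' hPq.ne']
    linarith
  simp only [h6] at hsum
  rw [← sum_div] at hsum
  have h9 : ((P - 1 : ℕ) : ℚ) = (P : ℚ) - 1 := by push_cast [Nat.cast_sub hP1.le]; ring
  rw [h9]
  have h10 := mul_le_mul_of_nonneg_left hsum hPq.le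
  rw [mul_add, mul_div_cancel₀ _ hPq.ne'] at h10
  linarith

end

end SlopeLP
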