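import Mathlib
import Pool.Agent.Lib_helper7.SLP.Lin

/-! The general slope theorem for sums of products of characters of polynomials. -/

open Finset

namespace SlopeLP

section

variable {L : Type*} [NormedField L] [IsUltrametricDist L]
variable {F : Type*} [Field F]
variable {P : ℕ} [hP : Fact P.Prime] [Algebra (ZMod P) F]
variable {ζ : L} [Fintype F]

theorem pow_inv_pow (ω : MulChar F L) (b : ℕ) {x : F} (hx : x ≠ 0) :
    ((ω⁻¹) ^ b) x = ((ω ^ b) x)⁻¹ := by
  have hux : IsUnit x := isUnit_iff_ne_zero.2 hx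
  have hx' : x = (hux.unit : F) := rfl
  rw [hx', MulChar.pow_apply_coe, MulChar.inv_apply_eq_inv', MulChar.pow_apply_coe, inv_pow]

theorem gauss_shift (hζ : IsPrimitiveRoot ζ P) {ω : MulChar F L} (hω : IsTeich ω) {b : ℕ}
    (hb0 : 0 < b) (hb : b < Fintype.card F - 1) (t : F) :
    ∑ s : F, ((ω⁻¹) ^ b) s * psi F hζ (s * t) = (ω ^ b) t * gaussSum ((ω⁻¹) ^ b) (psi F hζ) := by
  by_cases ht : t = 0
  · subst ht
    simp only [mul_zero, AddChar.map_zero_eq_one, mul_one]
    rw [MulChar.map_zero, zero_mul]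
    exact MulChar.sum_eq_zero_of_ne_one (hω.inv_pow_ne_one hb0 hb)
  · have h1 : gaussSum ((ω⁻¹) ^ b) (psi F hζ)
        = ∑ s : F, ((ω⁻¹) ^ b) (s * t) * psi F hζ (s * t) := by
      unfold gaussSum
      exact (Equiv.sum_comp (Equiv.mulRight₀ t ht) (fun y => ((ω⁻¹) ^ b) y * psi F hζ y)).symm
    rw [h1, mul_sum]
    refine sum_congr rfl fun s _ => ?_
    rw [map_mul ((ω⁻¹) ^ b) s t, pow_inv_pow ω b ht]
    have h2 : (ω ^ b) t ≠ 0 := by
      rw [← norm_pos_iff, norm_mulChar _ ht]; exact one_pos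
    field_simp

/-- digit sum of `(Q-1)/m * c` -/
theorem ds_twist {m : ℕ} (hm0 : 0 < m) (hm : m ∣ P - 1) (c : ℕ) (hc : c < m) (r : ℕ) :
    ds P ((P ^ r - 1) / m * c) = r * ((P - 1) / m * c) := by
  obtain ⟨s, hs⟩ := hm
  have hdiv : (P - 1) / m = s := by rw [hs]; exact Nat.mul_div_cancel_left _ hm0
  rw [hdiv]
  have hP2 := hP.out.two_le
  have hs0 : 0 < s := by
    rcases Nat.eq_zero_or_pos s with h | h
    · rw [h, mul_zero] at hs; omega
    · exact h
  induction r with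
  | zero => simp [ds]
  | succ r ih =>
    have h1 : (P ^ (r + 1) - 1) / m = P * ((P ^ r - 1) / m) + s := by
      have h2 : m ∣ P ^ r - 1 := by
        have h3 := Nat.sub_dvd_pow_sub_pow P 1 r
        rw [one_pow] at h3
        exact (Dvd.intro s hs.symm).trans h3
      obtain ⟨z, hz⟩ := h2
      have h4 : (P ^ r - 1) / m = z := by rw [hz]; exact Nat.mul_div_cancel_left _ hm0
      have h5 : P ^ (r + 1) - 1 = m * (P * z + s) := by
        have h6 : 1 ≤ P ^ r := Nat.one_le_pow _ _ hP.out.pos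
        have h7 : P ^ r = m * z + 1 := by omega
        have h8 : P = m * s + 1 := by omega
        rw [pow_succ, h7]
        have h9 : (m * z + 1) * P = m * (P * z) + P := by ring
        rw [h9]
        have h10 : m * (P * z) + P - 1 = m * (P * z) + (P - 1) := by omega
        rw [h10, hs]; ring
      rw [h4, h5]; exact Nat.mul_div_cancel_left _ hm0
    have h11 : (P ^ (r + 1) - 1) / m * c = P * ((P ^ r - 1) / m * c) + s * c := by
      rw [h1]; ring
    have h12 : s * c < P := by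
      have : s * c < s * m := Nat.mul_lt_mul_of_pos_left hc hs0
      have h13 : s * m = P - 1 := by rw [hs]; ring
      omega
    rw [h11, ds_mul_add hP.out.one_lt _ _ h12, ih]
    ring

variable {ι κ α : Type*} [Fintype ι] [Fintype κ] [Fintype α] [DecidableEq ι] [DecidableEq κ]
  [DecidableEq α]

theorem slope_general (hζ : IsPrimitiveRoot ζ P) (hL : ‖(P : L)‖ < 1) (hP2 : 2 < P)
    {ω : MulChar F L} (hω : IsTeich ω) {m : ℕ} (hm0 : 0 < m) (hm : m ∣ P - 1)
    (own : α → κ) (A : α → F) (e : α → ι → ℕ) (c : κ → ℕ) (hc0 : ∀ k, 0 < c k) (hc : ∀ k, c k < m)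
    (ρ : ℕ)
    (H : ∀ u : α → ℚ, (∀ a, 0 ≤ u a) → (∀ i, ∃ n : ℤ, ∑ a, u a * e a i = n) →
      (∀ k, ∃ n : ℤ, ∑ a, (if own a = k then u a else 0) = c k / m + n) →
      (ρ : ℚ) + ∑ k, (c k : ℚ) / m ≤ ∑ a, u a + #{i | ∑ a, u a * e a i = 0}) :
    ‖∑ x : ι → F, ∏ k, (ω ^ ((Fintype.card F - 1) / m * c k))
      (∑ a, if own a = k then A a * ∏ i, x i ^ e a i else 0)‖ ≤ ‖(P : L)‖ ^ (ρ * deg P F) := by
  have hQ : Fintype.card F = P ^ deg P F := card_eq (P := P)
  have hr : 0 < deg P F := deg_pos (P := P) (F := F)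
  have hQP : P ≤ Fintype.card F := by
    rw [hQ]
    calc P = P ^ 1 := (pow_one P).symm
      _ ≤ P ^ deg P F := Nat.pow_le_pow_right hP.out.pos hr
  have hpi := norm_pi_pos hζ
  set b : κ → ℕ := fun k => (Fintype.card F - 1) / m * c k with hb
  have hmQ : m ∣ Fintype.card F - 1 := hm.trans (by
    have := Nat.sub_dvd_pow_sub_pow P 1 (deg P F)
    rw [one_pow, ← hQ] at this
    exact this)
  have hdpos : 0 < (Fintype.card F - 1) / m :=
    Nat.div_pos (Nat.le_of_dvd (by omega) hmQ) hm0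
  have hb0 : ∀ k, 0 < b k := fun k => Nat.mul_pos hdpos (hc0 k)
  have hb1 : ∀ k, b k < Fintype.card F - 1 := by
    intro k
    have h1 : (Fintype.card F - 1) / m * c k < (Fintype.card F - 1) / m * m :=
      Nat.mul_lt_mul_of_pos_left (hc k) hdpos
    have h2 := Nat.div_mul_cancel hmQ
    rw [h2] at h1
    exact h1
  have hmq : (0 : ℚ) < m := by exact_mod_cast hm0
  -- the two natural numbers
  set R0 : ℕ := (P - 1) * deg P F * ρ with hR0
  set R1 : ℕ := ∑ k, ds P (b k) with hR1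
  have hds : ∀ k, ds P (b k) = deg P F * ((P - 1) / m * c k) := by
    intro k
    rw [hb]; simp only
    rw [hQ, ds_twist hm0 hm _ (hc k)]
  have hdsq : ∀ k, ((P - 1 : ℕ) : ℚ) * deg P F * ((c k : ℚ) / m) = (ds P (b k) : ℚ) := by
    intro k
    rw [hds k]
    obtain ⟨s, hs⟩ := hm
    have hdiv : (P - 1) / m = s := by rw [hs]; exact Nat.mul_div_cancel_left _ hm0
    rw [hdiv, hs]
    push_cast
    field_simp
  have hbound := expand_bound (α := α) (ι := ι) (κ := κ) hζ hL hP2 hω A e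
    (fun a k => if own a = k then 1 else 0) b (R0 + R1) (by
      intro w hw H1 H2
      rw [hQ] at hw H1 H2
      have hb' : ∀ k, b k = (P ^ deg P F - 1) / m * c k := by
        intro k; rw [hb]; simp only; rw [hQ]
      simp only [hb'] at H2
      have := lin_prog (P := P) (deg P F) m hm0 hm e (fun a k => if own a = k then 1 else 0) c
        ((ρ : ℚ) + ∑ k, (c k : ℚ) / m) (by
          intro u hu h1 h2
          refine H u hu h1 fun k => ?_
          obtain ⟨n, hn⟩ := h2 k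
          refine ⟨n, ?_⟩
          rw [← hn]
          refine sum_congr rfl fun a _ => ?_
          split_ifs <;> simp) w hw H1 H2 hr
      have h3 : ((P - 1 : ℕ) : ℚ) * deg P F * ((ρ : ℚ) + ∑ k, (c k : ℚ) / m) = ((R0 + R1 : ℕ) : ℚ) := by
        rw [mul_add, mul_sum, sum_congr rfl fun k _ => hdsq k, hR0, hR1]
        push_cast
        ring
      rw [h3] at this
      exact_mod_cast this)
  -- identity with Gauss sums
  have hid : (∑ x : ι → F, ∏ k, (ω ^ (b k)) (∑ a, if own a = k then A a * ∏ i, x i ^ e a i else 0))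
      * ∏ k, gaussSum ((ω⁻¹) ^ (b k)) (psi F hζ)
      = ∑ x : ι → F, ∑ s : κ → F, (∏ k, ((ω⁻¹) ^ (b k)) (s k)) *
      psi F hζ (∑ a, A a * (∏ i, x i ^ e a i) * ∏ k, s k ^ (if own a = k then 1 else 0)) := by
    rw [sum_mul]
    refine sum_congr rfl fun x _ => ?_
    rw [← prod_mul_distrib]
    have h1 : ∀ k, (ω ^ (b k)) (∑ a, if own a = k then A a * ∏ i, x i ^ e a i else 0)
        * gaussSum ((ω⁻¹) ^ (b k)) (psi F hζ)
        = ∑ s : F, ((ω⁻¹) ^ (b k)) s *
          psi F hζ (s * (∑ a, if own a = k then A a * ∏ i, x i ^ e a i else 0)) := by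
      intro k
      rw [gauss_shift hζ hω (hb0 k) (hb1 k)]
    rw [prod_congr rfl fun k _ => h1 k, prod_univ_sum, Fintype.piFinset_univ]
    refine sum_congr rfl fun s _ => ?_
    rw [prod_mul_distrib, ← psi_sum]
    congr 2
    simp only [mul_sum]
    rw [sum_comm]
    refine sum_congr rfl fun a _ => ?_
    have h2 : ∏ k, s k ^ (if own a = k then 1 else 0) = s (own a) := by
      rw [prod_eq_single_of_mem (own a) (mem_univ _)]
      · simp
      · intro k _ hk
        rw [if_neg (Ne.symm hk), pow_zero]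
    rw [h2, sum_eq_single_of_mem (own a) (mem_univ _)]
    · rw [if_pos rfl]; ring
    · intro k _ hk
      rw [if_neg (Ne.symm hk), mul_zero]
  rw [← hid, norm_mul, norm_prod] at hbound
  have hlow : ‖ζ - 1‖ ^ R1 ≤ ∏ k, ‖gaussSum ((ω⁻¹) ^ (b k)) (psi F hζ)‖ := by
    rw [hR1, ← prod_pow_eq_pow_sum]
    refine prod_le_prod (fun _ _ => by positivity) fun k _ => ?_
    exact gauss_lower hζ hL hP2 hω (b k) (hb1 k)
  have hpos : 0 < ‖ζ - 1‖ ^ R1 := pow_pos hpi _
  have hfin : ‖∑ x : ι → F, ∏ k, (ω ^ (b k)) (∑ a, if own a = k then A a * ∏ i, x i ^ e a i else 0)‖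
      * ‖ζ - 1‖ ^ R1 ≤ ‖ζ - 1‖ ^ R0 * ‖ζ - 1‖ ^ R1 := by
    rw [← pow_add]
    exact (mul_le_mul_of_nonneg_left hlow (norm_nonneg _)).trans hbound
  have hfin' := le_of_mul_le_mul_right hfin hpos
  have hR : ‖ζ - 1‖ ^ R0 = ‖(P : L)‖ ^ (ρ * deg P F) := by
    rw [← norm_pi_pow hζ, ← pow_mul, hR0]
    congr 1
    ring
  rw [hR] at hfin'
  exact hfin'

end

end SlopeLP
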