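import Mathlib
import Pool.Agent.Lib_helper7.SLP.General

/-! The slope theorem on the weighted plane `P(1,1,k)`: products of lines `a x + b w` and graphs
`y - g(x,w)`, `g` a form of degree `k`. -/

open Finset

namespace SlopeLP

theorem lp_core (k : ℕ) (hk : 1 ≤ k) (Sh Sv W wy T X0 X1 : ℚ) (M N n0 n1 n2 : ℤ)
    (hW : 0 ≤ W) (hwy : 0 ≤ wy) (hX0 : 0 ≤ X0) (hX1 : 0 ≤ X1)
    (h0 : X0 = n0) (h1 : X1 = n1) (h2 : wy = n2) (hM : 0 ≤ M) (hN : 0 ≤ N)
    (e1 : X0 + X1 = T + k * W) (e2 : T = Sv + M) (e3 : wy + W = Sh + N) (e4 : k * Sh + Sv = 1) :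
    (2 : ℚ) ≤ N + M + ((if X0 = 0 then 1 else 0) + (if X1 = 0 then 1 else 0)
      + (if wy = 0 then 1 else 0)) := by
  have hk' : (1 : ℚ) ≤ (k : ℚ) := by exact_mod_cast hk
  have hM' : (0 : ℚ) ≤ (M : ℚ) := by exact_mod_cast hM
  have a0 : (1 : ℚ) ≤ X0 + (if X0 = 0 then 1 else 0) := by
    split_ifs with h
    · rw [h]; norm_num
    · have : 0 < n0 := by
        rcases lt_trichotomy n0 0 with h3 | h3 | h3
        · have : (n0 : ℚ) < 0 := by exact_mod_cast h3
          rw [← h0] at this; linarith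
        · exfalso; apply h; rw [h0, h3]; norm_num
        · exact h3
      have h4 : (1 : ℚ) ≤ (n0 : ℚ) := by exact_mod_cast this
      rw [h0]; linarith
  have a1 : (1 : ℚ) ≤ X1 + (if X1 = 0 then 1 else 0) := by
    split_ifs with h
    · rw [h]; norm_num
    · have : 0 < n1 := by
        rcases lt_trichotomy n1 0 with h3 | h3 | h3
        · have : (n1 : ℚ) < 0 := by exact_mod_cast h3
          rw [← h1] at this; linarith
        · exfalso; apply h; rw [h1, h3]; norm_num
        · exact h3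
      have h4 : (1 : ℚ) ≤ (n1 : ℚ) := by exact_mod_cast this
      rw [h1]; linarith
  have p0 : (0 : ℚ) ≤ (if X0 = 0 then 1 else 0) := by split_ifs <;> norm_num
  have p1 : (0 : ℚ) ≤ (if X1 = 0 then 1 else 0) := by split_ifs <;> norm_num
  have p2 : (0 : ℚ) ≤ (if wy = 0 then 1 else 0) := by split_ifs <;> norm_num
  set π0 : ℚ := if X0 = 0 then 1 else 0
  set π1 : ℚ := if X1 = 0 then 1 else 0
  have e5 : (k : ℚ) * wy + k * W = k * Sh + k * N := by
    have : (k : ℚ) * (wy + W) = k * (Sh + N) := by rw [e3]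
    linarith
  rcases lt_trichotomy N 1 with hN1 | hN1 | hN1
  · have hN0 : N = 0 := by omega
    have hNq : (N : ℚ) = 0 := by rw [hN0]; norm_num
    rw [hNq] at e5 ⊢
    by_cases hw0 : wy = 0
    · rw [if_pos hw0]
      rw [hw0] at e5
      linarith
    · rw [if_neg hw0]
      have h5 : (1 : ℚ) ≤ wy := by
        have : 0 < n2 := by
          rcases lt_trichotomy n2 0 with h3 | h3 | h3
          · have : (n2 : ℚ) < 0 := by exact_mod_cast h3
            rw [← h2] at this; linarith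
          · exfalso; apply hw0; rw [h2, h3]; norm_num
          · exact h3
        rw [h2]; exact_mod_cast this
      have h6 : (1 : ℚ) ≤ k * wy := by nlinarith
      linarith
  · have hNq : (N : ℚ) = 1 := by rw [hN1]; norm_num
    rw [hNq] at e5 ⊢
    by_cases hw0 : wy = 0
    · rw [if_pos hw0]; linarith
    · rw [if_neg hw0]
      have h5 : (1 : ℚ) ≤ wy := by
        have : 0 < n2 := by
          rcases lt_trichotomy n2 0 with h3 | h3 | h3
          · have : (n2 : ℚ) < 0 := by exact_mod_cast h3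
            rw [← h2] at this; linarith
          · exfalso; apply hw0; rw [h2, h3]; norm_num
          · exact h3
        rw [h2]; exact_mod_cast this
      have h6 : (k : ℚ) ≤ k * wy := by nlinarith
      linarith
  · have h5 : (2 : ℚ) ≤ (N : ℚ) := by exact_mod_cast hN1
    linarith

section

variable {L : Type*} [NormedField L] [IsUltrametricDist L]
variable {F : Type*} [Field F]
variable {P : ℕ} [hP : Fact P.Prime] [Algebra (ZMod P) F]
variable {ζ : L} [Fintype F]
variable {ι κ : Type*} [Fintype ι] [Fintype κ]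

/-- coefficients of the monomials -/
def plA {k : ℕ} (a b : ι → F) (g : κ → Fin (k + 1) → F) :
    (ι × Fin 2) ⊕ (κ × Option (Fin (k + 1))) → F
  | Sum.inl (i, n) => if n = 0 then a i else b i
  | Sum.inr (_, none) => 1
  | Sum.inr (j, some l) => - g j l

/-- owners of the monomials -/
def plO {k : ℕ} : (ι × Fin 2) ⊕ (κ × Option (Fin (k + 1))) → ι ⊕ κ
  | Sum.inl (i, _) => Sum.inl i
  | Sum.inr (j, _) => Sum.inr j

/-- exponents of the monomials -/
def plE {k : ℕ} : (ι × Fin 2) ⊕ (κ × Option (Fin (k + 1))) → Fin 3 → ℕ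
  | Sum.inl (_, n) => if n = 0 then ![1, 0, 0] else ![0, 1, 0]
  | Sum.inr (_, none) => ![0, 0, 1]
  | Sum.inr (_, some l) => ![(l : ℕ), k - l, 0]

/-- THE SLOPE THEOREM. -/
theorem slope_plane (hζ : IsPrimitiveRoot ζ P) (hL : ‖(P : L)‖ < 1) (hP2 : 2 < P)
    {ω : MulChar F L} (hω : ∀ x y : F, ‖ω (x + y) - ω x - ω y‖ < 1)
    {m : ℕ} (hm : m ∣ P - 1) (k : ℕ) (hk : 1 ≤ k)
    (c : ι → ℕ) (d : κ → ℕ) (hc0 : ∀ i, 0 < c i) (hc : ∀ i, c i < m)
    (hd0 : ∀ j, 0 < d j) (hd : ∀ j, d j < m)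
    (hsum : k * ∑ j, d j + ∑ i, c i = m)
    (a b : ι → F) (g : κ → Fin (k + 1) → F) :
    ‖∑ x : Fin 3 → F, (∏ i, (ω ^ ((Fintype.card F - 1) / m * c i)) (a i * x 0 + b i * x 1)) *
      ∏ j, (ω ^ ((Fintype.card F - 1) / m * d j))
        (x 2 - ∑ l : Fin (k + 1), g j l * (x 0 ^ (l : ℕ) * x 1 ^ (k - (l : ℕ))))‖
      ≤ ‖(P : L)‖ ^ (2 * deg P F) := by
  classical
  have hP1 : 0 < P - 1 := by omega
  have hm0 : 0 < m := Nat.pos_of_dvd_of_pos hm hP1
  have hmq : (0 : ℚ) < m := by exact_mod_cast hm0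
  have h := slope_general (ι := Fin 3) (κ := ι ⊕ κ) hζ hL hP2 hω hm0 hm plO (plA a b g) plE
    (Sum.elim c d) (by rintro (i | j) <;> simp [hc0, hd0]) (by rintro (i | j) <;> simp [hc, hd]) 2 ?_
  · refine le_trans (le_of_eq ?_) h
    congr 1
    refine sum_congr rfl fun x _ => ?_
    rw [Fintype.prod_sum_type]
    congr 1
    · refine prod_congr rfl fun i _ => ?_
      simp only [Sum.elim_inl]
      congr 1
      rw [Fintype.sum_sum_type, Fintype.sum_prod_type, Fintype.sum_prod_type]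
      simp [plO, plA, plE, Fin.prod_univ_three]
    · refine prod_congr rfl fun j _ => ?_
      simp only [Sum.elim_inr]
      congr 1
      rw [Fintype.sum_sum_type, Fintype.sum_prod_type, Fintype.sum_prod_type]
      simp [plO, plA, plE, Fin.prod_univ_three, Fintype.sum_option]
      ring
  · intro u hu h1 h2
    have s0 : ∑ t, u t * (plE (ι := ι) (κ := κ) (k := k) t 0 : ℚ)
        = ∑ i, u (Sum.inl (i, 0)) + ∑ j, ∑ l : Fin (k + 1), u (Sum.inr (j, some l)) * (l : ℕ) := by
      rw [Fintype.sum_sum_type, Fintype.sum_prod_type, Fintype.sum_prod_type]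
      simp [plE, Fintype.sum_option]
    have s1 : ∑ t, u t * (plE (ι := ι) (κ := κ) (k := k) t 1 : ℚ)
        = ∑ i, u (Sum.inl (i, 1)) + ∑ j, ∑ l : Fin (k + 1), u (Sum.inr (j, some l)) * (k - (l : ℕ)) := by
      rw [Fintype.sum_sum_type, Fintype.sum_prod_type, Fintype.sum_prod_type]
      simp [plE, Fintype.sum_option]
      refine sum_congr rfl fun j _ => sum_congr rfl fun l _ => ?_
      rw [Nat.cast_sub (by omega)]
    have s2 : ∑ t, u t * (plE (ι := ι) (κ := κ) (k := k) t 2 : ℚ)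
        = ∑ j, u (Sum.inr (j, none)) := by
      rw [Fintype.sum_sum_type, Fintype.sum_prod_type, Fintype.sum_prod_type]
      simp [plE, Fintype.sum_option]
    have s3 : ∀ i, ∑ t, (if plO (k := k) t = (Sum.inl i : ι ⊕ κ) then u t else 0)
        = u (Sum.inl (i, 0)) + u (Sum.inl (i, 1)) := by
      intro i
      rw [Fintype.sum_sum_type, Fintype.sum_prod_type, Fintype.sum_prod_type]
      simp [plO]
    have s4 : ∀ j, ∑ t, (if plO (k := k) t = (Sum.inr j : ι ⊕ κ) then u t else 0)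
        = u (Sum.inr (j, none)) + ∑ l, u (Sum.inr (j, some l)) := by
      intro j
      rw [Fintype.sum_sum_type, Fintype.sum_prod_type, Fintype.sum_prod_type]
      simp [plO, Fintype.sum_option]
    have s5 : ∑ t, u t = (∑ i, (u (Sum.inl (i, 0)) + u (Sum.inl (i, 1))))
        + ∑ j, (u (Sum.inr (j, none)) + ∑ l, u (Sum.inr (j, some l))) := by
      rw [Fintype.sum_sum_type, Fintype.sum_prod_type, Fintype.sum_prod_type]
      simp [Fintype.sum_option]
    obtain ⟨n0, hn0⟩ := h1 0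
    obtain ⟨n1, hn1⟩ := h1 1
    obtain ⟨n2, hn2⟩ := h1 2
    have h3 : ∀ i, ∃ n : ℤ, 0 ≤ n ∧ u (Sum.inl (i, 0)) + u (Sum.inl (i, 1)) = c i / m + n := by
      intro i
      obtain ⟨n, hn⟩ := h2 (Sum.inl i)
      rw [s3] at hn
      simp only [Sum.elim_inl] at hn
      refine ⟨n, ?_, hn⟩
      by_contra hneg
      push Not at hneg
      have h4 : (n : ℚ) ≤ -1 := by exact_mod_cast (by omega : n ≤ -1)
      have h5 : (c i : ℚ) / m < 1 := by
        rw [div_lt_one hmq]; exact_mod_cast hc i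
      have h6 := hu (Sum.inl (i, 0))
      have h7 := hu (Sum.inl (i, 1))
      linarith
    have h4 : ∀ j, ∃ n : ℤ, 0 ≤ n ∧ u (Sum.inr (j, none)) + ∑ l, u (Sum.inr (j, some l)) = d j / m + n := by
      intro j
      obtain ⟨n, hn⟩ := h2 (Sum.inr j)
      rw [s4] at hn
      simp only [Sum.elim_inr] at hn
      refine ⟨n, ?_, hn⟩
      by_contra hneg
      push Not at hneg
      have h4 : (n : ℚ) ≤ -1 := by exact_mod_cast (by omega : n ≤ -1)
      have h5 : (d j : ℚ) / m < 1 := by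
        rw [div_lt_one hmq]; exact_mod_cast hd j
      have h6 := hu (Sum.inr (j, none))
      have h7 : 0 ≤ ∑ l, u (Sum.inr (j, some l)) := sum_nonneg fun l _ => hu _
      linarith
    choose M hM0 hM using h3
    choose N hN0 hN using h4
    have t1 : ∑ i, (u (Sum.inl (i, 0)) + u (Sum.inl (i, 1))) = ∑ i, (c i : ℚ) / m + ((∑ i, M i : ℤ) : ℚ) := by
      rw [sum_congr rfl fun i _ => hM i, sum_add_distrib]; push_cast; ring
    have t2 : ∑ j, (u (Sum.inr (j, none)) + ∑ l, u (Sum.inr (j, some l)))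
        = ∑ j, (d j : ℚ) / m + ((∑ j, N j : ℤ) : ℚ) := by
      rw [sum_congr rfl fun j _ => hN j, sum_add_distrib]; push_cast; ring
    rw [s0] at hn0
    rw [s1] at hn1
    rw [s2] at hn2
    have hcore := lp_core k hk (∑ j, (d j : ℚ) / m) (∑ i, (c i : ℚ) / m)
      (∑ j, ∑ l, u (Sum.inr (j, some l))) (∑ j, u (Sum.inr (j, none)))
      (∑ i, (u (Sum.inl (i, 0)) + u (Sum.inl (i, 1))))
      (∑ i, u (Sum.inl (i, 0)) + ∑ j, ∑ l : Fin (k + 1), u (Sum.inr (j, some l)) * (l : ℕ))
      (∑ i, u (Sum.inl (i, 1)) + ∑ j, ∑ l : Fin (k + 1), u (Sum.inr (j, some l)) * (k - (l : ℕ)))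
      (∑ i, M i) (∑ j, N j) n0 n1 n2
      (sum_nonneg fun j _ => sum_nonneg fun l _ => hu _) (sum_nonneg fun j _ => hu _)
      (add_nonneg (sum_nonneg fun i _ => hu _) (sum_nonneg fun j _ => sum_nonneg fun l _ =>
        mul_nonneg (hu _) (by positivity)))
      (add_nonneg (sum_nonneg fun i _ => hu _) (sum_nonneg fun j _ => sum_nonneg fun l _ =>
        mul_nonneg (hu _) (by
          have : ((l : ℕ) : ℚ) ≤ k := by exact_mod_cast (by omega : (l : ℕ) ≤ k)
          linarith)))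
      hn0 hn1 hn2 (sum_nonneg fun i _ => hM0 i) (sum_nonneg fun j _ => hN0 j)
      (by
        rw [sum_add_distrib, mul_sum]
        have : ∀ j, (k : ℚ) * ∑ l, u (Sum.inr (j, some l))
            = ∑ l : Fin (k + 1), u (Sum.inr (j, some l)) * (l : ℕ)
              + ∑ l : Fin (k + 1), u (Sum.inr (j, some l)) * (k - (l : ℕ)) := by
          intro j
          rw [← sum_add_distrib, mul_sum]
          refine sum_congr rfl fun l _ => by ring
        rw [sum_congr rfl fun j _ => this j, sum_add_distrib]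
        ring)
      (by rw [t1])
      (by rw [← sum_add_distrib, t2])
      (by
        rw [← sum_div, ← sum_div]
        have : ((k * ∑ j, d j + ∑ i, c i : ℕ) : ℚ) = (m : ℚ) := by rw [hsum]
        push_cast at this
        rw [← this]
        have h0 : (k : ℚ) * ∑ j, (d j : ℚ) + ∑ i, (c i : ℚ) ≠ 0 := by rw [this]; exact hmq.ne'
        field_simp)
    have hcard : ((#{i : Fin 3 | ∑ t, u t * (plE (ι := ι) (κ := κ) (k := k) t i : ℚ) = 0} : ℕ) : ℚ)
        = (if (∑ i, u (Sum.inl (i, 0)) + ∑ j, ∑ l : Fin (k + 1), u (Sum.inr (j, some l)) * (l : ℕ) : ℚ) = 0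
            then 1 else 0)
          + (if (∑ i, u (Sum.inl (i, 1)) + ∑ j, ∑ l : Fin (k + 1), u (Sum.inr (j, some l)) * (k - (l : ℕ)) : ℚ) = 0
            then 1 else 0)
          + (if (∑ j, u (Sum.inr (j, none)) : ℚ) = 0 then 1 else 0) := by
      rw [card_filter]
      push_cast
      rw [Fin.sum_univ_three, s0, s1, s2]
    rw [hcard, s5, t1, t2, Fintype.sum_sum_type]
    simp only [Sum.elim_inl, Sum.elim_inr]
    push_cast at hcore ⊢
    linarith

end

end SlopeLP
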