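import Mathlib
import Pool.Agent.Lib_helper7.SLP.General

/-! The slope theorem on the weighted projective space `P(1^(r+1), k^s)`: products of linear forms
in the variables of weight one and of forms `∑ c_t y_t + g(x)`, `g` a form of degree `k`. -/

open Finset

namespace SlopeLP

/-- every integral nonnegative value is at least one or is paid for -/
theorem pay_one {τ : Type*} [Fintype τ] (X : τ → ℚ) (h0 : ∀ t, 0 ≤ X t)
    (hz : ∀ t, ∃ n : ℤ, X t = n) :
    (Fintype.card τ : ℚ) ≤ ∑ t, X t + ∑ t, (if X t = 0 then (1 : ℚ) else 0) := by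
  classical
  rw [← sum_add_distrib]
  have h1 : ∀ t, (1 : ℚ) ≤ X t + (if X t = 0 then 1 else 0) := by
    intro t
    split_ifs with h
    · rw [h]; norm_num
    · obtain ⟨n, hn⟩ := hz t
      have h2 : 0 < n := by
        rcases lt_trichotomy n 0 with h3 | h3 | h3
        · have h4 : (n : ℚ) < 0 := by exact_mod_cast h3
          rw [← hn] at h4; linarith [h0 t]
        · exfalso; apply h; rw [hn, h3]; norm_num
        · exact h3
      have h4 : (1 : ℚ) ≤ (n : ℚ) := by exact_mod_cast h2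
      rw [hn]; linarith
  calc (Fintype.card τ : ℚ) = ∑ t : τ, (1 : ℚ) := by simp
    _ ≤ _ := sum_le_sum fun t _ => h1 t

section

variable {L : Type*} [NormedField L] [IsUltrametricDist L]
variable {F : Type*} [Field F]
variable {P : ℕ} [hP : Fact P.Prime] [Algebra (ZMod P) F]
variable {ζ : L} [Fintype F]
variable {ι κ τ υ μ : Type*} [Fintype ι] [Fintype κ] [Fintype τ] [Fintype υ] [Fintype μ]

/-- coefficients of the monomials -/
def weA (a : ι → τ → F) (c : κ → υ → F) (g : κ → μ → F) : (ι × τ) ⊕ (κ × (υ ⊕ μ)) → F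
  | Sum.inl (i, t) => a i t
  | Sum.inr (j, Sum.inl t) => c j t
  | Sum.inr (j, Sum.inr l) => g j l

/-- owners of the monomials -/
def weO : (ι × τ) ⊕ (κ × (υ ⊕ μ)) → ι ⊕ κ
  | Sum.inl (i, _) => Sum.inl i
  | Sum.inr (j, _) => Sum.inr j

/-- exponents of the monomials -/
def weE [DecidableEq τ] [DecidableEq υ] (e : μ → τ → ℕ) :
    (ι × τ) ⊕ (κ × (υ ⊕ μ)) → τ ⊕ υ → ℕ
  | Sum.inl (_, t) => Sum.elim (fun t' => if t = t' then 1 else 0) (fun _ => 0)
  | Sum.inr (_, Sum.inl t) => Sum.elim (fun _ => 0) (fun t' => if t = t' then 1 else 0)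
  | Sum.inr (_, Sum.inr l) => Sum.elim (e l) (fun _ => 0)

/-- THE SLOPE THEOREM on weighted projective spaces. -/
theorem slope_weighted [DecidableEq τ] [DecidableEq υ] (hζ : IsPrimitiveRoot ζ P) (hL : ‖(P : L)‖ < 1) (hP2 : 2 < P)
    {ω : MulChar F L} (hω : ∀ x y : F, ‖ω (x + y) - ω x - ω y‖ < 1)
    {m : ℕ} (hm : m ∣ P - 1) (k : ℕ) (hk : 1 ≤ k) (ρ : ℕ)
    (α : ι → ℕ) (β : κ → ℕ) (hα0 : ∀ i, 0 < α i) (hα : ∀ i, α i < m)
    (hβ0 : ∀ j, 0 < β j) (hβ : ∀ j, β j < m)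
    (hρ : k * ρ * m + (∑ i, α i + k * ∑ j, β j) < (k * (Fintype.card υ + 1) + Fintype.card τ) * m)
    (e : μ → τ → ℕ) (he : ∀ l, ∑ t, e l t = k)
    (a : ι → τ → F) (c : κ → υ → F) (g : κ → μ → F) :
    ‖∑ x : τ ⊕ υ → F,
      (∏ i, (ω ^ ((Fintype.card F - 1) / m * α i)) (∑ t, a i t * x (Sum.inl t))) *
      ∏ j, (ω ^ ((Fintype.card F - 1) / m * β j))
        (∑ t, c j t * x (Sum.inr t) + ∑ l, g j l * ∏ t, x (Sum.inl t) ^ e l t)‖
      ≤ ‖(P : L)‖ ^ (ρ * deg P F) := by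
  classical
  have hP1 : 0 < P - 1 := by omega
  have hm0 : 0 < m := Nat.pos_of_dvd_of_pos hm hP1
  have hmq : (0 : ℚ) < m := by exact_mod_cast hm0
  have hkq : (1 : ℚ) ≤ (k : ℚ) := by exact_mod_cast hk
  have h := slope_general (ι := τ ⊕ υ) (κ := ι ⊕ κ) hζ hL hP2 hω hm0 hm weO (weA a c g) (weE e)
    (Sum.elim α β) (by rintro (i | j) <;> simp [hα0, hβ0]) (by rintro (i | j) <;> simp [hα, hβ]) ρ ?_
  · refine le_trans (le_of_eq ?_) h
    congr 1
    refine sum_congr rfl fun x _ => ?_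
    rw [Fintype.prod_sum_type]
    congr 1
    · refine prod_congr rfl fun i _ => ?_
      simp only [Sum.elim_inl]
      congr 1
      rw [Fintype.sum_sum_type, Fintype.sum_prod_type, Fintype.sum_prod_type]
      simp [weO, weA, weE, Fintype.prod_sum_type]
    · refine prod_congr rfl fun j _ => ?_
      simp only [Sum.elim_inr]
      congr 1
      rw [Fintype.sum_sum_type, Fintype.sum_prod_type, Fintype.sum_prod_type]
      simp [weO, weA, weE, Fintype.prod_sum_type, Fintype.sum_sum_type]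
  · intro u hu h1 h2
    have s0 : ∀ t, ∑ z, u z * (weE (ι := ι) (κ := κ) e z (Sum.inl t) : ℚ)
        = ∑ i, u (Sum.inl (i, t)) + ∑ j, ∑ l, u (Sum.inr (j, Sum.inr l)) * (e l t : ℚ) := by
      intro t
      rw [Fintype.sum_sum_type, Fintype.sum_prod_type, Fintype.sum_prod_type]
      simp [weE, Fintype.sum_sum_type]
    have s1 : ∀ t, ∑ z, u z * (weE (ι := ι) (κ := κ) e z (Sum.inr t) : ℚ)
        = ∑ j, u (Sum.inr (j, Sum.inl t)) := by
      intro t
      rw [Fintype.sum_sum_type, Fintype.sum_prod_type, Fintype.sum_prod_type]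
      simp [weE, Fintype.sum_sum_type]
    have s3 : ∀ i, ∑ z, (if weO z = (Sum.inl i : ι ⊕ κ) then u z else 0)
        = ∑ t, u (Sum.inl (i, t)) := by
      intro i
      rw [Fintype.sum_sum_type, Fintype.sum_prod_type, Fintype.sum_prod_type]
      simp [weO]
    have s4 : ∀ j, ∑ z, (if weO z = (Sum.inr j : ι ⊕ κ) then u z else 0)
        = ∑ t, u (Sum.inr (j, Sum.inl t)) + ∑ l, u (Sum.inr (j, Sum.inr l)) := by
      intro j
      rw [Fintype.sum_sum_type, Fintype.sum_prod_type, Fintype.sum_prod_type]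
      simp [weO, Fintype.sum_sum_type]
    have s5 : ∑ z, u z = (∑ i, ∑ t, u (Sum.inl (i, t)))
        + ∑ j, (∑ t, u (Sum.inr (j, Sum.inl t)) + ∑ l, u (Sum.inr (j, Sum.inr l))) := by
      rw [Fintype.sum_sum_type, Fintype.sum_prod_type, Fintype.sum_prod_type]
      simp [Fintype.sum_sum_type]
    -- the values of the variables
    set X : τ → ℚ := fun t => ∑ i, u (Sum.inl (i, t))
      + ∑ j, ∑ l, u (Sum.inr (j, Sum.inr l)) * (e l t : ℚ) with hX
    set Y : υ → ℚ := fun t => ∑ j, u (Sum.inr (j, Sum.inl t)) with hY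
    have hX0 : ∀ t, 0 ≤ X t := fun t => add_nonneg (sum_nonneg fun i _ => hu _)
      (sum_nonneg fun j _ => sum_nonneg fun l _ => mul_nonneg (hu _) (by positivity))
    have hY0 : ∀ t, 0 ≤ Y t := fun t => sum_nonneg fun j _ => hu _
    have hXz : ∀ t, ∃ n : ℤ, X t = n := fun t => by
      obtain ⟨n, hn⟩ := h1 (Sum.inl t)
      exact ⟨n, by rw [← hn, s0]⟩
    have hYz : ∀ t, ∃ n : ℤ, Y t = n := fun t => by
      obtain ⟨n, hn⟩ := h1 (Sum.inr t)
      exact ⟨n, by rw [← hn, s1]⟩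
    have h3 : ∀ i, ∃ n : ℤ, 0 ≤ n ∧ ∑ t, u (Sum.inl (i, t)) = α i / m + n := by
      intro i
      obtain ⟨n, hn⟩ := h2 (Sum.inl i)
      rw [s3] at hn
      simp only [Sum.elim_inl] at hn
      refine ⟨n, ?_, hn⟩
      by_contra hneg
      push Not at hneg
      have h4 : (n : ℚ) ≤ -1 := by exact_mod_cast (by omega : n ≤ -1)
      have h5 : (α i : ℚ) / m < 1 := by
        rw [div_lt_one hmq]; exact_mod_cast hα i
      have h6 : 0 ≤ ∑ t, u (Sum.inl (i, t)) := sum_nonneg fun t _ => hu _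
      linarith
    have h4 : ∀ j, ∃ n : ℤ, ∑ t, u (Sum.inr (j, Sum.inl t)) + ∑ l, u (Sum.inr (j, Sum.inr l))
        = β j / m + n := by
      intro j
      obtain ⟨n, hn⟩ := h2 (Sum.inr j)
      rw [s4] at hn
      simp only [Sum.elim_inr] at hn
      exact ⟨n, hn⟩
    choose M hM0 hM using h3
    choose N hN using h4
    have t1 : ∑ i, ∑ t, u (Sum.inl (i, t)) = ∑ i, (α i : ℚ) / m + ((∑ i, M i : ℤ) : ℚ) := by
      rw [sum_congr rfl fun i _ => hM i, sum_add_distrib]; push_cast; ring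
    have t2 : ∑ j, (∑ t, u (Sum.inr (j, Sum.inl t)) + ∑ l, u (Sum.inr (j, Sum.inr l)))
        = ∑ j, (β j : ℚ) / m + ((∑ j, N j : ℤ) : ℚ) := by
      rw [sum_congr rfl fun j _ => hN j, sum_add_distrib]; push_cast; ring
    set W : ℚ := ∑ j, ∑ l, u (Sum.inr (j, Sum.inr l)) with hW
    have t3 : ∑ t, X t = ∑ i, ∑ t, u (Sum.inl (i, t)) + k * W := by
      rw [hX]
      simp only
      rw [sum_add_distrib, sum_comm]
      congr 1
      rw [sum_comm, hW, mul_sum]
      refine sum_congr rfl fun j _ => ?_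
      rw [sum_comm, mul_sum]
      refine sum_congr rfl fun l _ => ?_
      rw [← mul_sum]
      have : ∑ t, (e l t : ℚ) = k := by exact_mod_cast he l
      rw [this]; ring
    have t4 : ∑ t, Y t + W = ∑ j, (β j : ℚ) / m + ((∑ j, N j : ℤ) : ℚ) := by
      rw [← t2, sum_add_distrib, hY, hW]
      simp only
      rw [sum_comm]
    have t5 : (k : ℚ) * ρ + ((k : ℚ) * ∑ j, (β j : ℚ) / m + ∑ i, (α i : ℚ) / m)
        < k * (Fintype.card υ + 1) + Fintype.card τ := by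
      rw [← sum_div, ← sum_div]
      have h0 : ((k * ρ * m + (∑ i, α i + k * ∑ j, β j) : ℕ) : ℚ)
          < (((k * (Fintype.card υ + 1) + Fintype.card τ) * m : ℕ) : ℚ) := by exact_mod_cast hρ
      push_cast at h0
      rw [← mul_lt_mul_iff_left₀ hmq]
      have h00 : ((k : ℚ) * ρ + (k * ((∑ j, (β j : ℚ)) / m) + (∑ i, (α i : ℚ)) / m)) * m
          = k * ρ * m + (∑ i, (α i : ℚ) + k * ∑ j, (β j : ℚ)) := by
        field_simp
        ring
      rw [h00]
      exact h0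
    have hcard : ((#{i : τ ⊕ υ | ∑ z, u z * (weE (ι := ι) (κ := κ) e z i : ℚ) = 0} : ℕ) : ℚ)
        = ((#{t | X t = 0} : ℕ) : ℚ) + ((#{t | Y t = 0} : ℕ) : ℚ) := by
      rw [card_filter, card_filter, card_filter]
      push_cast
      rw [Fintype.sum_sum_type]
      simp only [s0, s1]
      rfl
    have p1 := pay_one X hX0 hXz
    have p2 := pay_one Y hY0 hYz
    have q1 : ∑ t, (if X t = 0 then (1 : ℚ) else 0) = ((#{t | X t = 0} : ℕ) : ℚ) := by
      rw [card_filter]; push_cast; rfl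
    have q2 : ∑ t, (if Y t = 0 then (1 : ℚ) else 0) = ((#{t | Y t = 0} : ℕ) : ℚ) := by
      rw [card_filter]; push_cast; rfl
    rw [q1] at p1
    rw [q2] at p2
    rw [hcard, s5, t1, t2, Fintype.sum_sum_type]
    simp only [Sum.elim_inl, Sum.elim_inr]
    have hM' : 0 ≤ ∑ i, M i := sum_nonneg fun i _ => hM0 i
    have hint : (ρ : ℤ) ≤ (∑ i, M i) + (∑ j, N j) + (#{t | X t = 0} : ℕ) + (#{t | Y t = 0} : ℕ) := by
      by_contra hcon
      push Not at hcon
      have hc2 : (((∑ i, M i) + (∑ j, N j) + (#{t | X t = 0} : ℕ) + (#{t | Y t = 0} : ℕ) + 1 : ℤ) : ℚ)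
          ≤ ((ρ : ℤ) : ℚ) := by exact_mod_cast hcon
      have hM2 : (0 : ℚ) ≤ ((∑ i, M i : ℤ) : ℚ) := by exact_mod_cast hM'
      have hρ' := t5
      push_cast at hc2 hM2 t1 t4
      have e1 : (k : ℚ) * (Fintype.card υ : ℚ) ≤ k * (∑ t, Y t + ((#{t | Y t = 0} : ℕ) : ℚ)) :=
        mul_le_mul_of_nonneg_left p2 (by linarith)
      have e2 : (∑ i, (M i : ℚ) + ((#{t | X t = 0} : ℕ) : ℚ))
          ≤ k * (∑ i, (M i : ℚ) + ((#{t | X t = 0} : ℕ) : ℚ)) := by
        have : (0 : ℚ) ≤ ∑ i, (M i : ℚ) + ((#{t | X t = 0} : ℕ) : ℚ) := by positivity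
        nlinarith
      have e3 : (Fintype.card τ : ℚ) ≤ ∑ i, (α i : ℚ) / m + ∑ i, (M i : ℚ) + k * W
          + ((#{t | X t = 0} : ℕ) : ℚ) := by
        rw [t3, t1] at p1; exact p1
      have e4 : (k : ℚ) * (∑ t, Y t + W) = k * (∑ j, (β j : ℚ) / m + ∑ j, (N j : ℚ)) := by rw [t4]
      have e5 := mul_le_mul_of_nonneg_left hc2 (by linarith : (0 : ℚ) ≤ k)
      have e6 : (k : ℚ) * (∑ i, (M i : ℚ) + ∑ j, (N j : ℚ) + ((#{t | X t = 0} : ℕ) : ℚ)
          + ((#{t | Y t = 0} : ℕ) : ℚ) + 1) = k * (∑ i, (M i : ℚ) + ((#{t | X t = 0} : ℕ) : ℚ))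
          + k * ∑ j, (N j : ℚ) + k * ((#{t | Y t = 0} : ℕ) : ℚ) + k := by ring
      rw [e6] at e5
      have e7 : (k : ℚ) * (Fintype.card υ + 1) = k * Fintype.card υ + k := by ring
      rw [e7] at hρ'
      have e8 : (k : ℚ) * (∑ t, Y t + ((#{t | Y t = 0} : ℕ) : ℚ))
          = k * ∑ t, Y t + k * ((#{t | Y t = 0} : ℕ) : ℚ) := by ring
      have e9 : (k : ℚ) * (∑ t, Y t + W) = k * ∑ t, Y t + k * W := by ring
      have e10 : (k : ℚ) * (∑ j, (β j : ℚ) / m + ∑ j, (N j : ℚ))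
          = k * ∑ j, (β j : ℚ) / m + k * ∑ j, (N j : ℚ) := by ring
      linarith
    have hint' : (ρ : ℚ) ≤ (((∑ i, M i) + (∑ j, N j) + (#{t | X t = 0} : ℕ)
        + (#{t | Y t = 0} : ℕ) : ℤ) : ℚ) := by exact_mod_cast hint
    push_cast at hint' ⊢
    linarith

end

end SlopeLP
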