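import Mathlib
import Pool.Agent.Lib_helper7.SLP.Weighted

/-! The slope theorem on weighted projective spaces, in terms of homogeneous polynomials. -/

open Finset

namespace SlopeLP

variable {L : Type*} [NormedField L] [IsUltrametricDist L]
variable {F : Type*} [Field F]
variable {P : ℕ} [hP : Fact P.Prime] [Algebra (ZMod P) F]
variable {ζ : L} [Fintype F]
variable {ι κ : Type*} [Fintype ι] [Fintype κ]

theorem slope_weighted_mv (hζ : IsPrimitiveRoot ζ P) (hL : ‖(P : L)‖ < 1) (hP2 : 2 < P)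
    {ω : MulChar F L} (hω : ∀ x y : F, ‖ω (x + y) - ω x - ω y‖ < 1)
    {m : ℕ} (hm : m ∣ P - 1) (r s k : ℕ) (hk : 1 ≤ k)
    (c : ι → ℕ) (d : κ → ℕ) (hc0 : ∀ i, 0 < c i) (hc : ∀ i, c i < m)
    (hd0 : ∀ j, 0 < d j) (hd : ∀ j, d j < m) (ρ : ℕ)
    (hρ : k * ρ * m + (∑ i, c i + k * ∑ j, d j) < (k * (s + 1) + (r + 1)) * m)
    (A : ι → Fin (r + 1) → F) (C : κ → Fin s → F) (G : κ → MvPolynomial (Fin (r + 1)) F)
    (hG : ∀ j, (G j).IsHomogeneous k) :
    ‖∑ x : Fin (r + 1) → F, ∑ y : Fin s → F,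
      (∏ i, (ω ^ ((Fintype.card F - 1) / m * c i)) (∑ l, A i l * x l)) *
      ∏ j, (ω ^ ((Fintype.card F - 1) / m * d j))
        (∑ t, C j t * y t + MvPolynomial.eval x (G j))‖
      ≤ ‖(P : L)‖ ^ (ρ * deg P F) := by
  classical
  let M : Finset (Fin (r + 1) →₀ ℕ) := univ.biUnion fun j => (G j).support
  have hM : ∀ l : M, ∑ t, (l : Fin (r + 1) →₀ ℕ) t = k := by
    intro l
    obtain ⟨j, -, hj⟩ := mem_biUnion.1 l.2
    have h1 := (hG j) (MvPolynomial.mem_support_iff.1 hj)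
    rw [← h1, Finsupp.weight_apply, Finsupp.sum_fintype _ _ (by simp)]
    simp
  have h := slope_weighted (ι := ι) (κ := κ) (τ := Fin (r + 1)) (υ := Fin s) (μ := M) hζ hL hP2 hω
    hm k hk ρ c d hc0 hc hd0 hd (by simpa using hρ) (fun l t => (l : Fin (r + 1) →₀ ℕ) t) hM A C
    (fun j l => (G j).coeff (l : Fin (r + 1) →₀ ℕ))
  refine le_trans (le_of_eq ?_) h
  congr 1
  rw [← Fintype.sum_prod_type', ← (Equiv.sumArrowEquivProdArrow (Fin (r + 1)) (Fin s) F).sum_comp]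
  refine sum_congr rfl fun x _ => ?_
  congr 1
  refine prod_congr rfl fun j _ => ?_
  congr 1
  congr 1
  rw [MvPolynomial.eval_eq']
  have h2 : ∑ l : M, (G j).coeff (l : Fin (r + 1) →₀ ℕ)
      * ∏ t, x (Sum.inl t) ^ ((l : Fin (r + 1) →₀ ℕ) t)
      = ∑ l ∈ M, (G j).coeff l * ∏ t, x (Sum.inl t) ^ (l t) :=
    Finset.sum_coe_sort M (fun l => (G j).coeff l * ∏ t, x (Sum.inl t) ^ (l t))
  rw [h2]
  refine Finset.sum_subset (fun l hl => mem_biUnion.2 ⟨j, mem_univ _, hl⟩) fun l _ hl => ?_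
  rw [MvPolynomial.notMem_support_iff.1 hl, zero_mul]

end SlopeLP
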